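import Mathlib

namespace Pool.Agent.Results.MP_024ca5_nt.DistanceTwoFace

/-! ### The objects of the problem -/

/-- The matrices of the problem: `A ∈ SL(3, ℤ)` whose characteristic polynomial is irreducible
over `ℚ` and has three distinct real roots. -/
structure IsAdmissible (A : Matrix (Fin 3) (Fin 3) ℤ) : Prop where
  det_eq_one : A.det = 1
  irreducible : Irreducible (A.charpoly.map (Int.castRingHom ℚ))
  three_real_roots : (A.charpoly.map (Int.castRingHom ℝ)).roots.toFinset.card = 3

/-- The real matrix of an integer matrix. -/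
def realMat (A : Matrix (Fin 3) (Fin 3) ℤ) : Matrix (Fin 3) (Fin 3) ℝ :=
  A.map (Int.cast : ℤ → ℝ)

/-- `C` is one of the eight open simplicial cones cut out by the planes spanned by pairs of
eigenlines: the open cone spanned by one eigenvector on each of the three eigenlines. -/
def IsEigenCone (A : Matrix (Fin 3) (Fin 3) ℤ) (C : Set (Fin 3 → ℝ)) : Prop :=
  ∃ (lam : Fin 3 → ℝ) (w : Fin 3 → (Fin 3 → ℝ)), Function.Injective lam ∧
    (∀ i, w i ≠ 0 ∧ (realMat A).mulVec (w i) = lam i • w i) ∧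
    C = {x | ∃ t : Fin 3 → ℝ, (∀ i, 0 < t i) ∧ x = ∑ i, t i • w i}

/-- The nonzero integer points of `ℝ³`. -/
def latticePoints : Set (Fin 3 → ℝ) := {x | x ≠ 0 ∧ ∃ z : Fin 3 → ℤ, ∀ i, x i = (z i : ℝ)}

/-- The convex hull of the nonzero integer points of the closed cone. -/
def hull (C : Set (Fin 3 → ℝ)) : Set (Fin 3 → ℝ) := convexHull ℝ (closure C ∩ latticePoints)

/-- The sail: the boundary of the convex hull. -/
def sail (C : Set (Fin 3 → ℝ)) : Set (Fin 3 → ℝ) := frontier (hull C)

/-- `F` is a (two-dimensional) face of the sail: it lies in the sail, it is cut out of the convex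
hull by a supporting plane, and it spans that plane. -/
def IsFace (C F : Set (Fin 3 → ℝ)) : Prop :=
  F ⊆ sail C ∧ ∃ (f : (Fin 3 → ℝ) →ₗ[ℝ] ℝ) (c : ℝ), f ≠ 0 ∧ (∀ x ∈ hull C, c ≤ f x) ∧
    F = {x | x ∈ hull C ∧ f x = c} ∧ (affineSpan ℝ F : Set (Fin 3 → ℝ)) = {x | f x = c}

/-- The group `Γ_C` of operators in `SL(3, ℤ)` commuting with `A` and mapping `C` to itself. -/
def Gam (A : Matrix (Fin 3) (Fin 3) ℤ) (C : Set (Fin 3 → ℝ)) : Set (Matrix (Fin 3) (Fin 3) ℤ) :=
  {B | B.det = 1 ∧ B * A = A * B ∧ (fun x => (realMat B).mulVec x) '' C = C}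

/-- A face of the torus decomposition: the orbit of a face of the sail under `Γ_C`. -/
def IsTorusFace (A : Matrix (Fin 3) (Fin 3) ℤ) (C : Set (Fin 3 → ℝ))
    (O : Set (Set (Fin 3 → ℝ))) : Prop :=
  ∃ F, IsFace C F ∧ O = {F' | ∃ B ∈ Gam A C, F' = (fun x => (realMat B).mulVec x) '' F}

/-- The plane of `F` is `{x | f x = c}` for a primitive integer linear form `f` and `c > 0`. -/
def HasIntegerDistance (F : Set (Fin 3 → ℝ)) (c : ℤ) : Prop :=
  0 < c ∧ ∃ f : Fin 3 → ℤ, (∀ d : ℤ, (∀ i, d ∣ f i) → IsUnit d) ∧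
    (affineSpan ℝ F : Set (Fin 3 → ℝ)) = {x | ∑ i, (f i : ℝ) * x i = (c : ℝ)}

/-! ### Sanity checks: the hypotheses are satisfiable -/

section Sanity

open Polynomial

/-- every admissible matrix has such cones -/
theorem exists_isEigenCone {A : Matrix (Fin 3) (Fin 3) ℤ} (hA : IsAdmissible A) :
    ∃ C, IsEigenCone A C := by
  have hcard := hA.three_real_roots
  have hchar : A.charpoly.map (Int.castRingHom ℝ) = (realMat A).charpoly :=
    (Matrix.charpoly_map A (Int.castRingHom ℝ)).symm
  rw [hchar] at hcard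
  let eqv := (Finset.equivFinOfCardEq hcard).symm
  let lam : Fin 3 → ℝ := fun i => (eqv i : ℝ)
  have hinj : Function.Injective lam := fun i j h => eqv.injective (Subtype.ext h)
  have hex : ∀ i, ∃ v : Fin 3 → ℝ, v ≠ 0 ∧ (realMat A).mulVec v = lam i • v := by
    intro i
    have h1 : lam i ∈ (realMat A).charpoly.roots := Multiset.mem_toFinset.mp (eqv i).2
    have h2 : ((realMat A).charpoly).eval (lam i) = 0 := (mem_roots'.mp h1).2
    rw [Matrix.eval_charpoly] at h2
    obtain ⟨v, hv, hv0⟩ := Matrix.exists_mulVec_eq_zero_iff.mpr h2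
    refine ⟨v, hv, ?_⟩
    rw [Matrix.sub_mulVec, sub_eq_zero] at hv0
    rw [← hv0]
    simp [Matrix.scalar_apply]
  choose w hw using hex
  exact ⟨_, lam, w, hinj, hw, rfl⟩

/-- an explicit admissible matrix -/
theorem isAdmissible_example : IsAdmissible !![0, 0, 1; 1, 0, -5; 0, 1, 6] := by
  have hch : (!![0, 0, 1; 1, 0, -5; 0, 1, 6] : Matrix (Fin 3) (Fin 3) ℤ).charpoly =
      X ^ 3 + (C (-6) * X ^ 2 + C 5 * X + C (-1)) := by
    rw [Matrix.charpoly, Matrix.det_fin_three]
    simp
    ring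
  have hlow : ∀ (R : Type) [CommRing R] [Nontrivial R] (f : ℤ →+* R),
      (C (f (-6)) * X ^ 2 + C (f 5) * X + C (f (-1)) : R[X]).degree < 3 := by
    intro R _ _ f
    exact lt_of_le_of_lt (by compute_degree) (by norm_num : (2 : WithBot ℕ) < 3)
  have hmap : ∀ (R : Type) [CommRing R] (f : ℤ →+* R),
      ((X ^ 3 + (C (-6) * X ^ 2 + C 5 * X + C (-1)) : ℤ[X]).map f) =
        X ^ 3 + (C (f (-6)) * X ^ 2 + C (f 5) * X + C (f (-1))) := by
    intro R _ f
    simp only [Polynomial.map_add, Polynomial.map_mul, Polynomial.map_pow, map_X, map_C]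
  have hdeg : ∀ (R : Type) [CommRing R] [Nontrivial R] (f : ℤ →+* R),
      ((X ^ 3 + (C (-6) * X ^ 2 + C 5 * X + C (-1)) : ℤ[X]).map f).natDegree = 3 := by
    intro R _ _ f
    rw [hmap]
    have h2 : (X ^ 3 + (C (f (-6)) * X ^ 2 + C (f 5) * X + C (f (-1))) : R[X]).degree = 3 := by
      rw [degree_add_eq_left_of_degree_lt]
      · simp
      · rw [degree_X_pow]; exact hlow R f
    exact natDegree_eq_of_degree_eq_some h2
  have hmon : (X ^ 3 + (C (-6) * X ^ 2 + C 5 * X + C (-1)) : ℤ[X]).Monic := by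
    have := hlow ℤ (RingHom.id ℤ)
    exact monic_X_pow_add this
  refine ⟨?_, ?_, ?_⟩
  · rw [Matrix.det_fin_three]; simp
  · rw [hch]
    apply irreducible_of_degree_le_three_of_not_isRoot
    · rw [hdeg]; simp
    · intro r hr
      have hr' : aeval r (X ^ 3 + (C (-6) * X ^ 2 + C 5 * X + C (-1)) : ℤ[X]) = 0 := by
        rw [IsRoot.def, eval_map] at hr
        rw [aeval_def]
        exact hr
      obtain ⟨n, hn⟩ := isInteger_of_is_root_of_monic hmon hr'
      rw [IsRoot.def, hmap] at hr
      rw [← hn] at hr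
      have hr2 : (n : ℚ) ^ 3 - 6 * (n : ℚ) ^ 2 + 5 * (n : ℚ) - 1 = 0 := by
        rw [← hr]
        simp
        ring
      have h3 : n ^ 3 - 6 * n ^ 2 + 5 * n - 1 = 0 := by exact_mod_cast hr2
      have h4 : n * (n ^ 2 - 6 * n + 5) = 1 := by linarith
      rcases Int.eq_one_or_neg_one_of_mul_eq_one h4 with h | h
      · rw [h] at h3; norm_num at h3
      · rw [h] at h3; norm_num at h3
  · rw [hch]
    set p : ℝ[X] := (X ^ 3 + (C (-6) * X ^ 2 + C 5 * X + C (-1)) : ℤ[X]).map (Int.castRingHom ℝ) with hp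
    have hpd : p.natDegree = 3 := hdeg ℝ _
    have hp0 : p ≠ 0 := by
      intro h; rw [h] at hpd; simp at hpd
    have hev : ∀ x : ℝ, p.eval x = x ^ 3 - 6 * x ^ 2 + 5 * x - 1 := by
      intro x
      rw [hp, hmap]
      simp
      ring
    have hcont : Continuous fun x => p.eval x := p.continuous
    obtain ⟨r1, hr1, e1⟩ : (0 : ℝ) ∈ (fun x => p.eval x) '' Set.Icc 0 (1 / 2) :=
      intermediate_value_Icc (by norm_num) hcont.continuousOn (by
        simp only [hev]; constructor <;> norm_num)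
    obtain ⟨r2, hr2, e2⟩ : (0 : ℝ) ∈ (fun x => p.eval x) '' Set.Icc (1 / 2) 1 :=
      intermediate_value_Icc' (by norm_num) hcont.continuousOn (by
        simp only [hev]; constructor <;> norm_num)
    obtain ⟨r3, hr3, e3⟩ : (0 : ℝ) ∈ (fun x => p.eval x) '' Set.Icc 1 6 :=
      intermediate_value_Icc (by norm_num) hcont.continuousOn (by
        simp only [hev]; constructor <;> norm_num)
    simp only at e1 e2 e3
    have n12 : r1 ≠ r2 := by
      intro h
      have : r1 = 1 / 2 := le_antisymm hr1.2 (h ▸ hr2.1)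
      rw [this, hev] at e1; norm_num at e1
    have n23 : r2 ≠ r3 := by
      intro h
      have : r2 = 1 := le_antisymm hr2.2 (h ▸ hr3.1)
      rw [this, hev] at e2; norm_num at e2
    have n13 : r1 ≠ r3 := by
      intro h
      have := hr1.2
      have := hr3.1
      rw [← h] at this
      linarith
    apply le_antisymm
    · calc p.roots.toFinset.card ≤ Multiset.card p.roots := Multiset.toFinset_card_le _
        _ ≤ p.natDegree := p.card_roots'
        _ = 3 := hpd
    · have hsub : ({r1, r2, r3} : Finset ℝ) ⊆ p.roots.toFinset := by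
        intro x hx
        simp only [Finset.mem_insert, Finset.mem_singleton] at hx
        rw [Multiset.mem_toFinset, mem_roots hp0]
        rcases hx with rfl | rfl | rfl
        · exact e1
        · exact e2
        · exact e3
      have hc : ({r1, r2, r3} : Finset ℝ).card = 3 := Finset.card_eq_three.mpr ⟨r1, r2, r3, n12, n13, n23, rfl⟩
      rw [← hc]
      exact Finset.card_le_card hsub

end Sanity

/-! ### Closed paths for the three term recursion -/

namespace ClosedPath

/-- one step of the recursion -/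
def stp (a : ℤ) (p : ℝ × ℝ) : ℝ × ℝ := (p.2, (a : ℝ) * p.2 - p.1)

def run : List ℤ → ℝ × ℝ → ℝ × ℝ
  | [], p => p
  | a :: l, p => run l (stp a p)

noncomputable def sg (x y : ℝ) : ℤ := if 0 < x * y then 1 else -1

noncomputable def cost : List ℤ → ℝ × ℝ → ℤ
  | [], _ => 0
  | a :: l, p => a - 3 * sg p.2 ((a : ℝ) * p.2 - p.1) + cost l (stp a p)

def Irr (p : ℝ × ℝ) : Prop := ∀ m n : ℤ, (m : ℝ) * p.1 + (n : ℝ) * p.2 = 0 → m = 0 ∧ n = 0

theorem Irr.neg {p : ℝ × ℝ} (h : Irr p) : Irr (-p) := by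
  intro m n hmn
  apply h m n
  have : (m : ℝ) * (-p).1 + (n : ℝ) * (-p).2 = -((m : ℝ) * p.1 + (n : ℝ) * p.2) := by
    simp; ring
  rw [this] at hmn
  linarith

theorem Irr.stp {p : ℝ × ℝ} (h : Irr p) (a : ℤ) : Irr (stp a p) := by
  intro m n hmn
  simp only [ClosedPath.stp] at hmn
  have := h (-n) (m + n * a) (by push_cast; linarith)
  obtain ⟨h1, h2⟩ := this
  have hn : n = 0 := by omega
  subst hn
  simp at h2
  exact ⟨h2, rfl⟩

theorem Irr.run {l : List ℤ} : ∀ {p : ℝ × ℝ}, Irr p → Irr (run l p) := by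
  induction l with
  | nil => intro p h; exact h
  | cons a l ih => intro p h; exact ih (h.stp a)

theorem Irr.fst_ne {p : ℝ × ℝ} (h : Irr p) : p.1 ≠ 0 := by
  intro h0
  have := h 1 0 (by simp [h0])
  simp at this

theorem Irr.snd_ne {p : ℝ × ℝ} (h : Irr p) : p.2 ≠ 0 := by
  intro h0
  have := h 0 1 (by simp [h0])
  simp at this

theorem Irr.abs_ne {p : ℝ × ℝ} (h : Irr p) : |p.1| ≠ |p.2| := by
  intro h0
  rcases abs_eq_abs.mp h0 with h1 | h1
  · have := h 1 (-1) (by push_cast; linarith)
    simp at this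
  · have := h 1 1 (by push_cast; linarith)
    simp at this

theorem stp_neg (a : ℤ) (p : ℝ × ℝ) : stp a (-p) = - stp a p := by
  ext
  · simp [stp]
  · simp [stp]; ring

theorem run_neg (l : List ℤ) : ∀ p : ℝ × ℝ, run l (-p) = - run l p := by
  induction l with
  | nil => intro p; rfl
  | cons a l ih => intro p; simp only [run]; rw [stp_neg, ih]

theorem sg_neg_neg (x y : ℝ) : sg (-x) (-y) = sg x y := by
  simp [sg]

theorem cost_neg (l : List ℤ) : ∀ p : ℝ × ℝ, cost l (-p) = cost l p := by
  induction l with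
  | nil => intro p; rfl
  | cons a l ih =>
    intro p
    simp only [cost]
    rw [stp_neg, ih]
    have : (a : ℝ) * (-p).2 - (-p).1 = -((a : ℝ) * p.2 - p.1) := by simp; ring
    rw [this]
    have h2 : (-p).2 = - p.2 := rfl
    rw [h2, sg_neg_neg]

theorem run_append (l₁ l₂ : List ℤ) : ∀ p, run (l₁ ++ l₂) p = run l₂ (run l₁ p) := by
  induction l₁ with
  | nil => intro p; rfl
  | cons a l ih => intro p; simp only [List.cons_append, run]; rw [ih]

theorem cost_append (l₁ l₂ : List ℤ) : ∀ p, cost (l₁ ++ l₂) p = cost l₁ p + cost l₂ (run l₁ p) := by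
  induction l₁ with
  | nil => intro p; simp [cost, run]
  | cons a l ih => intro p; simp only [List.cons_append, cost, run]; rw [ih]; ring

def Closed (l : List ℤ) (p : ℝ × ℝ) : Prop := run l p = p ∨ run l p = -p

theorem Closed.rotate {l₁ l₂ : List ℤ} {p : ℝ × ℝ} (h : Closed (l₁ ++ l₂) p) :
    Closed (l₂ ++ l₁) (run l₁ p) := by
  unfold Closed at *
  rw [run_append] at h
  rw [run_append]
  rcases h with h | h
  · left; rw [h]
  · right; rw [h, run_neg]

theorem cost_rotate {l₁ l₂ : List ℤ} {p : ℝ × ℝ} (h : Closed (l₁ ++ l₂) p) :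
    cost (l₂ ++ l₁) (run l₁ p) = cost (l₁ ++ l₂) p := by
  unfold Closed at h
  rw [run_append] at h
  rw [cost_append, cost_append]
  rcases h with h | h
  · rw [h]; ring
  · rw [h, cost_neg]; ring

/-- growth when all coefficients have absolute value at least two -/
theorem growth (l : List ℤ) : ∀ p : ℝ × ℝ, (∀ a ∈ l, 2 ≤ |a|) → |p.1| < |p.2| →
    |(run l p).1| < |(run l p).2| ∧ |p.2| ≤ |(run l p).2| ∧ (l ≠ [] → |p.2| < |(run l p).2|) := by
  induction l with
  | nil => intro p _ h; exact ⟨h, le_rfl, fun h => absurd rfl h⟩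
  | cons a l ih =>
    intro p hl hp
    have ha : (2 : ℝ) ≤ |(a : ℝ)| := by
      have := hl a (by simp)
      exact_mod_cast this
    have h1 : |(stp a p).1| < |(stp a p).2| := by
      simp only [stp]
      have h2 : |(a : ℝ) * p.2| ≤ |(a : ℝ) * p.2 - p.1| + |p.1| := by
        have := abs_add_le ((a : ℝ) * p.2 - p.1) p.1
        simpa using this
      rw [abs_mul] at h2
      nlinarith [abs_nonneg p.2, abs_nonneg p.1]
    obtain ⟨h3, h4, h5⟩ := ih (stp a p) (fun b hb => hl b (by simp [hb])) h1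
    have h6 : |p.2| < |(stp a p).2| := by
      have : (stp a p).1 = p.2 := rfl
      rw [this] at h1
      exact h1
    refine ⟨h3, ?_, fun _ => ?_⟩
    · exact le_trans h6.le h4
    · exact lt_of_lt_of_le h6 h4

theorem not_closed_of_lt {l : List ℤ} {p : ℝ × ℝ} (hl : ∀ a ∈ l, 2 ≤ |a|) (hne : l ≠ [])
    (hp : |p.1| < |p.2|) : ¬ Closed l p := by
  intro h
  obtain ⟨_, _, h3⟩ := growth l p hl hp
  have h4 := h3 hne
  rcases h with h | h
  · rw [h] at h4; simp at h4
  · rw [h] at h4; simp at h4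

theorem exists_small {l : List ℤ} {p : ℝ × ℝ} (hirr : Irr p) (hne : l ≠ []) (hc : Closed l p) :
    ∃ a ∈ l, |a| ≤ 1 := by
  by_contra hcon
  push Not at hcon
  have hl : ∀ a ∈ l, 2 ≤ |a| := fun a ha => by have := hcon a ha; omega
  -- all states are decreasing
  have key : ∀ l₁ l₂ : List ℤ, l₁ ++ l₂ = l → |(run l₁ p).2| < |(run l₁ p).1| := by
    intro l₁ l₂ h12
    have hc' : Closed (l₂ ++ l₁) (run l₁ p) := by
      apply Closed.rotate; rw [h12]; exact hc
    by_contra hge
    push Not at hge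
    have hlt : |(run l₁ p).1| < |(run l₁ p).2| :=
      lt_of_le_of_ne hge (Irr.run hirr).abs_ne
    refine not_closed_of_lt (l := l₂ ++ l₁) ?_ ?_ hlt hc'
    · intro a ha
      apply hl
      rw [← h12]
      simp only [List.mem_append] at ha ⊢
      tauto
    · intro h0
      apply hne
      rw [← h12]
      simp only [List.append_eq_nil_iff] at h0 ⊢
      tauto
  have chain : ∀ l₁ l₂ : List ℤ, l₁ ++ l₂ = l → l₁ ≠ [] → |(run l₁ p).1| ≤ |p.2| := by
    intro l₁
    induction l₁ using List.reverseRecOn with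
    | nil => intro l₂ _ h; exact absurd rfl h
    | append_singleton l₁ a ih =>
      intro l₂ h12 _
      rw [run_append]
      have e1 : (run [a] (run l₁ p)).1 = (run l₁ p).2 := rfl
      rw [e1]
      by_cases h0 : l₁ = []
      · subst h0; exact le_rfl
      · have h1 := ih (a :: l₂) (by rw [← h12]; simp) h0
        have h2 := key l₁ (a :: l₂) (by rw [← h12]; simp)
        linarith
  have h1 := chain l [] (by simp) hne
  have h2 := key [] l (by simp)
  have h3 : |(run l p).1| = |p.1| := by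
    rcases hc with h | h <;> rw [h] <;> simp
  rw [h3] at h1
  simp only [run] at h2
  linarith

theorem sg_pos {x y : ℝ} (h : 0 < x * y) : sg x y = 1 := if_pos h

theorem sg_neg {x y : ℝ} (h : x * y < 0) : sg x y = -1 := if_neg (by linarith)

theorem sg_tri1 {x y z : ℝ} (hx : x ≠ 0) (hy : y ≠ 0) (hz : z ≠ 0) (h : y = x + z) :
    sg x y + sg y z = sg x z + 1 := by
  subst h
  rcases lt_or_gt_of_ne hx with hx | hx <;> rcases lt_or_gt_of_ne hz with hz | hz
  · rw [sg_pos (by nlinarith), sg_pos (by nlinarith), sg_pos (by nlinarith)]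
  · rcases lt_or_gt_of_ne hy with hy | hy
    · rw [sg_pos (by nlinarith : 0 < x * (x + z)), sg_neg (by nlinarith : (x + z) * z < 0),
        sg_neg (by nlinarith : x * z < 0)]
      rfl
    · rw [sg_neg (by nlinarith : x * (x + z) < 0), sg_pos (by nlinarith : 0 < (x + z) * z),
        sg_neg (by nlinarith : x * z < 0)]
  · rcases lt_or_gt_of_ne hy with hy | hy
    · rw [sg_neg (by nlinarith : x * (x + z) < 0), sg_pos (by nlinarith : 0 < (x + z) * z),
        sg_neg (by nlinarith : x * z < 0)]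
    · rw [sg_pos (by nlinarith : 0 < x * (x + z)), sg_neg (by nlinarith : (x + z) * z < 0),
        sg_neg (by nlinarith : x * z < 0)]
      rfl
  · rw [sg_pos (by nlinarith), sg_pos (by nlinarith), sg_pos (by nlinarith)]

theorem sg_neg_left {x y : ℝ} (hx : x ≠ 0) (hy : y ≠ 0) : sg (-x) y = - sg x y := by
  unfold sg
  have hxy : x * y ≠ 0 := mul_ne_zero hx hy
  rcases lt_or_gt_of_ne hxy with h | h
  · rw [if_pos (by linarith), if_neg (by linarith)]
    norm_num
  · rw [if_neg (by linarith), if_pos (by linarith)]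

theorem sg_neg_right {x y : ℝ} (hx : x ≠ 0) (hy : y ≠ 0) : sg x (-y) = - sg x y := by
  unfold sg
  have hxy : x * y ≠ 0 := mul_ne_zero hx hy
  rcases lt_or_gt_of_ne hxy with h | h
  · rw [if_pos (by linarith), if_neg (by linarith)]
    norm_num
  · rw [if_neg (by linarith), if_pos (by linarith)]

theorem sg_comm (x y : ℝ) : sg x y = sg y x := by
  unfold sg; rw [mul_comm]

/-- replacement rules -/
theorem rule_one (a b : ℤ) {p : ℝ × ℝ} (hp : Irr p) :
    run [a, 1, b] p = run [a - 1, b - 1] p ∧ cost [a, 1, b] p = cost [a - 1, b - 1] p := by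
  have h1 : Irr (stp a p) := hp.stp a
  have h2 : Irr (stp 1 (stp a p)) := h1.stp 1
  have h3 : Irr (stp b (stp 1 (stp a p))) := h2.stp b
  obtain ⟨x, y⟩ := p
  have hy := hp.snd_ne
  have hz := h1.snd_ne
  have hw := h2.snd_ne
  simp only [stp] at hy hz hw
  push_cast at hw
  constructor
  · ext
    · simp only [run, stp]; push_cast; ring
    · simp only [run, stp]; push_cast; ring
  · simp only [cost, stp]
    push_cast
    have e1 : (1 * ((a : ℝ) * y - x) - y) = ((a : ℝ) - 1) * y - x := by ring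
    have e2 : (b : ℝ) * (1 * ((a : ℝ) * y - x) - y) - ((a : ℝ) * y - x) =
      ((b : ℝ) - 1) * (((a : ℝ) - 1) * y - x) - y := by ring
    rw [e2, e1]
    rw [e1] at hw
    have := sg_tri1 hy hz hw (by ring)
    linarith

theorem rule_zero (a b : ℤ) {p : ℝ × ℝ} (hp : Irr p) :
    run [a, 0, b] p = - run [a + b] p ∧ cost [a, 0, b] p = cost [a + b] p := by
  have h1 : Irr (stp a p) := hp.stp a
  have h4 : Irr (stp (a + b) p) := hp.stp (a + b)
  obtain ⟨x, y⟩ := p
  have hy := hp.snd_ne
  have hz := h1.snd_ne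
  have hw := h4.snd_ne
  simp only [stp] at hy hz hw
  push_cast at hw
  constructor
  · ext
    · simp only [run, stp, Prod.fst_neg]; push_cast; ring
    · simp only [run, stp, Prod.snd_neg]; push_cast; ring
  · simp only [cost, stp]
    push_cast
    have e1 : (0 * ((a : ℝ) * y - x) - y) = -y := by ring
    have e2 : (b : ℝ) * (0 * ((a : ℝ) * y - x) - y) - ((a : ℝ) * y - x) =
      -(((a : ℝ) + b) * y - x) := by ring
    rw [e2, e1]
    rw [sg_neg_neg, sg_neg_right hz hy, sg_comm ((a : ℝ) * y - x) y]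
    ring

theorem rule_neg_one (a b : ℤ) {p : ℝ × ℝ} (hp : Irr p) :
    run [a, -1, b] p = - run [a + 1, b + 1] p ∧ cost [a, -1, b] p = cost [a + 1, b + 1] p := by
  have h1 : Irr (stp a p) := hp.stp a
  have h2 : Irr (stp (a + 1) p) := hp.stp (a + 1)
  have h3 : Irr (stp (b + 1) (stp (a + 1) p)) := h2.stp (b + 1)
  obtain ⟨x, y⟩ := p
  have hy := hp.snd_ne
  have hz := h1.snd_ne
  have hw := h2.snd_ne
  have hv := h3.snd_ne
  simp only [stp] at hy hz hw hv
  push_cast at hw hv
  constructor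
  · ext
    · simp only [run, stp, Prod.fst_neg]; push_cast; ring
    · simp only [run, stp, Prod.snd_neg]; push_cast; ring
  · simp only [cost, stp]
    push_cast
    have e1 : (-1 * ((a : ℝ) * y - x) - y) = -(((a : ℝ) + 1) * y - x) := by ring
    have e2 : (b : ℝ) * (-1 * ((a : ℝ) * y - x) - y) - ((a : ℝ) * y - x) =
      -(((b : ℝ) + 1) * (((a : ℝ) + 1) * y - x) - y) := by ring
    rw [e2, e1]
    rw [sg_neg_neg, sg_neg_right hz hw]
    -- w = y + z
    have := sg_tri1 hy hw hz (by ring)
    rw [sg_comm ((a : ℝ) * y - x) (((a : ℝ) + 1) * y - x)]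
    linarith

theorem closed_cost (n : ℕ) : ∀ (l : List ℤ) (p : ℝ × ℝ), l.length = n → Irr p → Closed l p →
    cost l p = 0 := by
  induction n using Nat.strong_induction_on with
  | _ n ih =>
    intro l p hlen hp hc
    by_cases hnil : l = []
    · subst hnil; rfl
    obtain ⟨s, hs, hs1⟩ := exists_small hp hnil hc
    -- split l around s
    obtain ⟨pre, post, rfl⟩ := List.append_of_mem hs
    -- n = 1, n = 2 or bigger
    -- rotate so that s is in second position
    have main : ∀ (b : ℤ) (rest : List ℤ) (q : ℝ × ℝ), Irr q → Closed (b :: s :: rest) q →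
        (b :: s :: rest).length = n → cost (b :: s :: rest) q = 0 := by
      intro b rest q hq hcq hlenq
      have hs' : s = 1 ∨ s = 0 ∨ s = -1 := by
        have := abs_le.mp hs1
        omega
      cases rest with
      | nil =>
        -- length two
        obtain ⟨x, y⟩ := q
        have hx := hq.fst_ne
        have hy := hq.snd_ne
        have h1 := (hq.stp b).snd_ne
        simp only [stp] at hx hy h1
        unfold Closed at hcq
        simp only [run, stp, Prod.mk.injEq, Prod.neg_mk] at hcq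
        rcases hcq with ⟨e1, e2⟩ | ⟨e1, e2⟩
        · have := hq (-2) b (by push_cast; linarith)
          simp at this
        · have h2 := hq 0 b (by push_cast; linarith)
          have hb : b = 0 := h2.2
          subst hb
          push_cast at e1 e2
          have h3 := hq s 0 (by push_cast; nlinarith)
          have hs0 : s = 0 := h3.1
          subst hs0
          simp only [cost, stp]
          push_cast
          have e3 : (0 * y - x) = -x := by ring
          have e4 : (0 * (0 * y - x) - y) = -y := by ring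
          rw [e4, e3, sg_neg_neg, sg_neg_right hy hx, sg_comm x y]
          ring
      | cons c rest =>
        rcases hs' with rfl | rfl | rfl
        · have e : (b :: 1 :: c :: rest) = [b, 1, c] ++ rest := rfl
          obtain ⟨r1, r2⟩ := rule_one b c hq
          rw [e, cost_append, r1, r2, ← cost_append]
          apply ih (([b - 1, c - 1] ++ rest).length) _ _ _ rfl hq
          · unfold Closed at *
            rw [e, run_append, r1, ← run_append] at hcq
            exact hcq
          · simp at hlenq ⊢; omega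
        · have e : (b :: 0 :: c :: rest) = [b, 0, c] ++ rest := rfl
          obtain ⟨r1, r2⟩ := rule_zero b c hq
          rw [e, cost_append, r1, r2, cost_neg, ← cost_append]
          apply ih (([b + c] ++ rest).length) _ _ _ rfl hq
          · unfold Closed at *
            rw [e, run_append, r1, run_neg, ← run_append] at hcq
            rcases hcq with h | h
            · right; exact neg_eq_iff_eq_neg.mp h
            · left; exact neg_injective h
          · simp at hlenq ⊢; omega
        · have e : (b :: -1 :: c :: rest) = [b, -1, c] ++ rest := rfl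
          obtain ⟨r1, r2⟩ := rule_neg_one b c hq
          rw [e, cost_append, r1, r2, cost_neg, ← cost_append]
          apply ih (([b + 1, c + 1] ++ rest).length) _ _ _ rfl hq
          · unfold Closed at *
            rw [e, run_append, r1, run_neg, ← run_append] at hcq
            rcases hcq with h | h
            · right; exact neg_eq_iff_eq_neg.mp h
            · left; exact neg_injective h
          · simp at hlenq ⊢; omega
    rcases List.eq_nil_or_concat pre with rfl | ⟨pre', b, rfl⟩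
    · rcases List.eq_nil_or_concat post with rfl | ⟨post', b, rfl⟩
      · -- length one
        exfalso
        unfold Closed at hc
        simp only [List.nil_append, run, stp] at hc
        have := hp.abs_ne
        apply this
        rcases hc with h | h
        · have := congrArg Prod.fst h
          simp only at this
          rw [this]
        · have := congrArg Prod.fst h
          simp only [Prod.fst_neg] at this
          rw [this, abs_neg]
      · -- l = s :: post' ++ [b]
        have hc2 : Closed ((s :: post') ++ [b]) p := by simpa using hc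
        have h1 := cost_rotate hc2
        have h2 := Closed.rotate hc2
        have h3 := main b post' (run (s :: post') p) (Irr.run hp) (by simpa using h2)
          (by simp at hlen ⊢; omega)
        simp only [List.nil_append, List.concat_eq_append]
        have e : s :: (post' ++ [b]) = (s :: post') ++ [b] := rfl
        rw [e, ← h1]
        simpa using h3
    · have hc2 : Closed (pre' ++ (b :: s :: post)) p := by simpa using hc
      have h1 := cost_rotate hc2
      have h2 := Closed.rotate hc2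
      have h3 := main b (post ++ pre') (run pre' p) (Irr.run hp) (by simpa using h2)
          (by simp at hlen ⊢; omega)
      have e : pre'.concat b ++ s :: post = pre' ++ (b :: s :: post) := by simp
      rw [e, ← h1]
      simpa using h3

end ClosedPath

/-! ### Lattice geometry: Minkowski and thin vectors -/

namespace KCore

open MeasureTheory

abbrev IVec := Fin 3 → ℤ
abbrev Form := IVec →ₗ[ℤ] ℝ

/-- standard basis vectors -/
def e (j : Fin 3) : IVec := Pi.single j 1

/-- determinant of three integer vectors -/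
def det3 (a b c : IVec) : ℤ :=
  a 0 * (b 1 * c 2 - b 2 * c 1) - a 1 * (b 0 * c 2 - b 2 * c 0) + a 2 * (b 0 * c 1 - b 1 * c 0)

/-- determinant of three real vectors -/
def rdet (a b c : Fin 3 → ℝ) : ℝ :=
  a 0 * (b 1 * c 2 - b 2 * c 1) - a 1 * (b 0 * c 2 - b 2 * c 0) + a 2 * (b 0 * c 1 - b 1 * c 0)

noncomputable def Ldet (L : Fin 3 → Form) : ℝ :=
  rdet (fun i => L i (e 0)) (fun i => L i (e 1)) (fun i => L i (e 2))

theorem lat_decomp (x : IVec) : x = x 0 • e 0 + x 1 • e 1 + x 2 • e 2 := by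
  ext i
  fin_cases i <;> simp [e]

theorem form_apply (f : Form) (x : IVec) :
    f x = (x 0 : ℝ) * f (e 0) + (x 1 : ℝ) * f (e 1) + (x 2 : ℝ) * f (e 2) := by
  conv_lhs => rw [lat_decomp x]
  rw [map_add, map_add, map_smul, map_smul, map_smul]
  simp only [zsmul_eq_mul]

theorem rdet_L (L : Fin 3 → Form) (a b c : IVec) :
    rdet (fun i => L i a) (fun i => L i b) (fun i => L i c) = Ldet L * (det3 a b c : ℝ) := by
  simp only [rdet, Ldet, det3]
  rw [form_apply (L 0) a, form_apply (L 0) b, form_apply (L 0) c,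
    form_apply (L 1) a, form_apply (L 1) b, form_apply (L 1) c,
    form_apply (L 2) a, form_apply (L 2) b, form_apply (L 2) c]
  push_cast
  ring

theorem minkowski (L : Fin 3 → Form) (hdet : Ldet L ≠ 0) (r : Fin 3 → ℝ) (hr : ∀ i, 0 < r i)
    (h : |Ldet L| < r 0 * r 1 * r 2) : ∃ y : IVec, y ≠ 0 ∧ ∀ i, |L i y| < r i := by
  -- the basis of columns
  let v : Fin 3 → (Fin 3 → ℝ) := fun j i => L i (e j)
  have hdetv : (Matrix.of v).det = Ldet L := by
    rw [Matrix.det_fin_three]
    simp only [Matrix.of_apply, v, Ldet, rdet]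
    ring
  have hunit : IsUnit (Matrix.of v).det := by
    rw [hdetv]; exact isUnit_iff_ne_zero.mpr hdet
  have hli : LinearIndependent ℝ v := by
    have := Matrix.linearIndependent_rows_iff_isUnit.mpr ((Matrix.isUnit_iff_isUnit_det _).mpr hunit)
    exact this
  let b : Module.Basis (Fin 3) ℝ (Fin 3 → ℝ) :=
    basisOfLinearIndependentOfCardEqFinrank hli (by simp)
  have hb : ⇑b = v := coe_basisOfLinearIndependentOfCardEqFinrank hli (by simp)
  let s : Set (Fin 3 → ℝ) := Set.pi Set.univ (fun i => Set.Ioo (-(r i)) (r i))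
  have hvol : volume s = ENNReal.ofReal (8 * (r 0 * r 1 * r 2)) := by
    rw [Real.volume_pi_Ioo, Fin.prod_univ_three, ← ENNReal.ofReal_mul (by linarith [hr 0]),
      ← ENNReal.ofReal_mul (by nlinarith [hr 0, hr 1])]
    congr 1
    ring
  have hF : volume (ZSpan.fundamentalDomain b) = ENNReal.ofReal |Ldet L| := by
    rw [ZSpan.volume_fundamentalDomain]
    congr 1
    rw [hb, hdetv]
  have : Countable (Submodule.span ℤ (Set.range b)).toAddSubgroup :=
    inferInstanceAs (Countable (Submodule.span ℤ (Set.range b)))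
  have hmain := exists_ne_zero_mem_lattice_of_measure_mul_two_pow_lt_measure (μ := volume)
    (L := (Submodule.span ℤ (Set.range b)).toAddSubgroup) (F := ZSpan.fundamentalDomain b) (s := s)
    (ZSpan.isAddFundamentalDomain' b volume) (by
      intro x hx i _
      have := hx i (Set.mem_univ i)
      simp only [Set.mem_Ioo, Pi.neg_apply] at this ⊢
      constructor <;> linarith [this.1, this.2])
    (convex_pi fun i _ => convex_Ioo _ _)
    (by
      rw [hvol, hF]
      have : Module.finrank ℝ (Fin 3 → ℝ) = 3 := by simp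
      rw [this]
      have h8 : (2 : ENNReal) ^ 3 = ENNReal.ofReal 8 := by
        norm_num
      rw [h8, ← ENNReal.ofReal_mul (abs_nonneg _)]
      apply (ENNReal.ofReal_lt_ofReal_iff _).mpr
      · linarith
      · have := mul_pos (mul_pos (hr 0) (hr 1)) (hr 2)
        linarith)
  obtain ⟨⟨x, hxmem⟩, hx0, hxs⟩ := hmain
  have hxmem : x ∈ Submodule.span ℤ (Set.range b) := hxmem
  rw [hb] at hxmem
  obtain ⟨c, hc⟩ := (Submodule.mem_span_range_iff_exists_fun ℤ).mp hxmem
  refine ⟨c, ?_, ?_⟩
  · rintro rfl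
    apply hx0
    ext1
    change x = 0
    rw [← hc]
    simp
  · intro i
    have h1 := hxs i (Set.mem_univ i)
    have h1 : x i ∈ Set.Ioo (-(r i)) (r i) := h1
    have h2 : x i = L i c := by
      rw [← hc, form_apply (L i) c]
      simp [Fin.sum_univ_three, v]
    rw [h2] at h1
    exact abs_lt.mpr h1

theorem box_dir (L : Fin 3 → Form) (hdet : Ldet L ≠ 0) (δ : ℝ) (hδ : 0 < δ)
    (hN : ∀ y : IVec, y ≠ 0 → δ ≤ |L 0 y * L 1 y * L 2 y|) (η : ℝ) (hη : 0 < η)
    (s : Fin 3 → ℝ) (hs : ∀ i, 0 < s i)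
    (hK : s 0 * s 1 * s 2 = 8 * |Ldet L| / η ^ 2) (i : Fin 3) :
    ∃ a : IVec, δ / (8 * |Ldet L|) * s i < L i a ∧ L i a < s i / 4 ∧
      ∀ j, j ≠ i → |L j a| < η * s j := by
  have hΔ : 0 < |Ldet L| := abs_pos.mpr hdet
  let r : Fin 3 → ℝ := fun j => if j = i then s i / 4 else η * s j
  have hr : ∀ j, 0 < r j := by
    intro j
    simp only [r]
    split_ifs
    · linarith [hs i]
    · exact mul_pos hη (hs j)
  have hprod : r 0 * r 1 * r 2 = 2 * |Ldet L| := by
    have h1 : r 0 * r 1 * r 2 = η ^ 2 * (s 0 * s 1 * s 2) / 4 := by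
      fin_cases i <;> simp [r] <;> ring
    rw [h1, hK]
    field_simp
    norm_num
  obtain ⟨y, hy0, hy⟩ := minkowski L hdet r hr (by rw [hprod]; linarith)
  have hyN := hN y hy0
  have key : δ / (8 * |Ldet L|) * s i < |L i y| := by
    have h0 := hy 0
    have h1 := hy 1
    have h2 := hy 2
    have s0 := hs 0
    have s1 := hs 1
    have s2 := hs 2
    have hprod' : s 0 * s 1 * s 2 * η ^ 2 = 8 * |Ldet L| := by
      rw [hK]; field_simp
    rw [abs_mul, abs_mul] at hyN
    have aux : ∀ u v w sj sk si : ℝ, 0 ≤ u → 0 ≤ v → 0 ≤ w → 0 < sj → 0 < sk → 0 < si →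
        u < η * sj → v < η * sk → δ ≤ w * (u * v) → si * sj * sk * η ^ 2 = 8 * |Ldet L| →
        δ / (8 * |Ldet L|) * si < w := by
      intro u v w sj sk si hu hv hw hsj hsk hsi h1 h2 h3 h4
      rw [← h4]
      have hwpos : 0 < w := by
        rcases hw.lt_or_eq with h | h
        · exact h
        · rw [← h] at h3; simp at h3; linarith
      have h5 : u * v < (η * sj) * (η * sk) := by
        apply mul_lt_mul'' h1 h2 hu hv
      have h6 : δ < w * ((η * sj) * (η * sk)) := lt_of_le_of_lt h3 (by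
        apply mul_lt_mul_of_pos_left h5 hwpos)
      have h7 : δ / (si * sj * sk * η ^ 2) * si = δ / ((η * sj) * (η * sk)) := by
        field_simp
      rw [h7, div_lt_iff₀ (by positivity)]
      exact h6
    fin_cases i
    · simp only [r] at h1 h2
      simp at h1 h2
      exact aux _ _ _ _ _ _ (abs_nonneg _) (abs_nonneg _) (abs_nonneg _) s1 s2 s0 h1 h2
        (by simp only [Fin.zero_eta]; linarith) (by simp only [Fin.zero_eta]; linarith)
    · simp only [r] at h0 h2
      simp at h0 h2
      exact aux _ _ _ _ _ _ (abs_nonneg _) (abs_nonneg _) (abs_nonneg _) s0 s2 s1 h0 h2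
        (by simp only [Fin.mk_one]; linarith) (by simp only [Fin.mk_one]; linarith)
    · simp only [r] at h0 h1
      simp at h0 h1
      exact aux _ _ _ _ _ _ (abs_nonneg _) (abs_nonneg _) (abs_nonneg _) s0 s1 s2 h0 h1
        (by simp only [Fin.reduceFinMk]; linarith) (by simp only [Fin.reduceFinMk]; linarith)
  have hyi : |L i y| < s i / 4 := by
    have := hy i
    simpa [r] using this
  have hyj : ∀ j, j ≠ i → |L j y| < η * s j := by
    intro j hj
    have := hy j
    simpa [r, hj] using this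
  rcases le_total 0 (L i y) with h | h
  · refine ⟨y, ?_, ?_, hyj⟩
    · rwa [abs_of_nonneg h] at key
    · rwa [abs_of_nonneg h] at hyi
  · refine ⟨-y, ?_, ?_, ?_⟩
    · rw [map_neg]; rwa [abs_of_nonpos h] at key
    · rw [map_neg]; rwa [abs_of_nonpos h] at hyi
    · intro j hj
      rw [map_neg, abs_neg]
      exact hyj j hj

theorem box (L : Fin 3 → Form) (hdet : Ldet L ≠ 0) (δ : ℝ) (hδ : 0 < δ)
    (hN : ∀ y : IVec, y ≠ 0 → δ ≤ |L 0 y * L 1 y * L 2 y|) :
    ∃ K : ℝ, 0 < K ∧ ∀ s : Fin 3 → ℝ, (∀ i, 0 < s i) → K ≤ s 0 * s 1 * s 2 →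
      ∃ y : IVec, ∀ i, 0 < L i y ∧ L i y < s i := by
  have hΔ : 0 < |Ldet L| := abs_pos.mpr hdet
  set κ := δ / (8 * |Ldet L|) with hκ
  have hκ0 : 0 < κ := by positivity
  set η := κ / 4 with hη
  have hη0 : 0 < η := by positivity
  refine ⟨8 * |Ldet L| / η ^ 2, by positivity, ?_⟩
  intro s hs hK
  have hS : 0 < s 0 * s 1 * s 2 := mul_pos (mul_pos (hs 0) (hs 1)) (hs 2)
  -- normalise
  let s' : Fin 3 → ℝ := fun i => if i = 0 then s 0 * ((8 * |Ldet L| / η ^ 2) / (s 0 * s 1 * s 2)) else s i
  have hs' : ∀ i, 0 < s' i := by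
    intro i
    have := hs i
    have := hs 0
    simp only [s']
    split_ifs
    · positivity
    · assumption
  have hle : ∀ i, s' i ≤ s i := by
    intro i
    simp only [s']
    split_ifs with h
    · subst h
      have h1 : (8 * |Ldet L| / η ^ 2) / (s 0 * s 1 * s 2) ≤ 1 := by
        rw [div_le_one hS]; exact hK
      nlinarith [hs 0]
    · exact le_rfl
  have hK' : s' 0 * s' 1 * s' 2 = 8 * |Ldet L| / η ^ 2 := by
    simp only [s']
    have h0 := (hs 0).ne'
    have h1 := (hs 1).ne'
    have h2 := (hs 2).ne'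
    simp
    field_simp
  obtain ⟨a, a1, a2, a3⟩ := box_dir L hdet δ hδ hN η hη0 s' hs' hK' 0
  obtain ⟨b, b1, b2, b3⟩ := box_dir L hdet δ hδ hN η hη0 s' hs' hK' 1
  obtain ⟨c, c1, c2, c3⟩ := box_dir L hdet δ hδ hN η hη0 s' hs' hK' 2
  rw [← hκ] at a1 b1 c1
  have hs0 := hs' 0
  have hs1 := hs' 1
  have hs2 := hs' 2
  have hκ4 : κ < 1 / 4 := by
    by_contra hcon
    push Not at hcon
    nlinarith
  refine ⟨a + b + c, ?_⟩
  have ha1 := abs_lt.mp (a3 1 (by decide))
  have ha2 := abs_lt.mp (a3 2 (by decide))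
  have hb0 := abs_lt.mp (b3 0 (by decide))
  have hb2 := abs_lt.mp (b3 2 (by decide))
  have hc0 := abs_lt.mp (c3 0 (by decide))
  have hc1 := abs_lt.mp (c3 1 (by decide))
  have hl0 := hle 0
  have hl1 := hle 1
  have hl2 := hle 2
  have e0 : 0 < κ * s' 0 := mul_pos hκ0 hs0
  have e1 : 0 < κ * s' 1 := mul_pos hκ0 hs1
  have e2 : 0 < κ * s' 2 := mul_pos hκ0 hs2
  have f0 : κ * s' 0 < s' 0 / 4 := by nlinarith
  have f1 : κ * s' 1 < s' 1 / 4 := by nlinarith
  have f2 : κ * s' 2 < s' 2 / 4 := by nlinarith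
  have g0 : η * s' 0 = κ * s' 0 / 4 := by rw [hη]; ring
  have g1 : η * s' 1 = κ * s' 1 / 4 := by rw [hη]; ring
  have g2 : η * s' 2 = κ * s' 2 / 4 := by rw [hη]; ring
  rw [g0] at hb0 hc0
  rw [g1] at ha1 hc1
  rw [g2] at ha2 hb2
  intro i
  rw [map_add, map_add]
  fin_cases i
  · simp only [Fin.zero_eta]
    constructor
    · linarith [hb0.1, hc0.1]
    · linarith [hb0.2, hc0.2]
  · simp only [Fin.mk_one]
    constructor
    · linarith [ha1.1, hc1.1]
    · linarith [ha1.2, hc1.2]
  · simp only [Fin.reduceFinMk]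
    constructor
    · linarith [ha2.1, hb2.1]
    · linarith [ha2.2, hb2.2]

end KCore

namespace KCore

/-- dot product of integer vectors -/
def dotp (g y : IVec) : ℤ := g 0 * y 0 + g 1 * y 1 + g 2 * y 2

structure Setup where
  L : Fin 3 → Form
  A : IVec →ₗ[ℤ] IVec
  lam : Fin 3 → ℝ
  lam_inj : Function.Injective lam
  eig : ∀ i x, L i (A x) = lam i * L i x
  ldet : Ldet L ≠ 0
  δ : ℝ
  δ_pos : 0 < δ
  norm_ge : ∀ y : IVec, y ≠ 0 → δ ≤ |L 0 y * L 1 y * L 2 y|
  ε : ℝ
  ε_pos : 0 < ε
  dual_ge : ∀ g : IVec, g ≠ 0 → ∀ c : Fin 3 → ℝ,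
    (∀ y : IVec, (dotp g y : ℝ) = c 0 * L 0 y + c 1 * L 1 y + c 2 * L 2 y) →
      ε ≤ |c 0 * c 1 * c 2|
  H : ∀ (g : IVec) (k : ℤ), (∀ d : ℤ, d ∣ g 0 → d ∣ g 1 → d ∣ g 2 → IsUnit d) → 2 ≤ k →
    (∀ y : IVec, (∀ i, 0 < L i y) → k ≤ dotp g y) →
    ∀ a b c : IVec, (∀ i, 0 < L i a) → (∀ i, 0 < L i b) → (∀ i, 0 < L i c) →
      dotp g a = k → dotp g b = k → dotp g c = k → det3 a b c ≠ 0 → False

/-- coefficients of a form in terms of three others -/
noncomputable def fdet (f g h : Form) : ℝ :=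
  rdet (fun j => f (e j)) (fun j => g (e j)) (fun j => h (e j))

namespace Setup

variable (T : Setup)

def S : Set IVec := {y | ∀ i, 0 < T.L i y}

noncomputable def coef (f : Form) : Fin 3 → ℝ :=
  ![fdet f (T.L 1) (T.L 2) / Ldet T.L, fdet (T.L 0) f (T.L 2) / Ldet T.L,
    fdet (T.L 0) (T.L 1) f / Ldet T.L]

theorem coef_spec (f : Form) (y : IVec) :
    f y = T.coef f 0 * T.L 0 y + T.coef f 1 * T.L 1 y + T.coef f 2 * T.L 2 y := by
  have h := T.ldet
  simp only [coef, Matrix.cons_val_zero, Matrix.cons_val_one, Matrix.cons_val]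
  have key : Ldet T.L * f y = fdet f (T.L 1) (T.L 2) * T.L 0 y + fdet (T.L 0) f (T.L 2) * T.L 1 y
      + fdet (T.L 0) (T.L 1) f * T.L 2 y := by
    rw [form_apply f y, form_apply (T.L 0) y, form_apply (T.L 1) y, form_apply (T.L 2) y]
    simp only [Ldet, fdet, rdet]
    ring
  field_simp
  linarith

theorem coef_unique (f : Form) (c : Fin 3 → ℝ)
    (hc : ∀ y, f y = c 0 * T.L 0 y + c 1 * T.L 1 y + c 2 * T.L 2 y) : c = T.coef f := by
  have h := T.ldet
  have k0 : c 0 = fdet f (T.L 1) (T.L 2) / Ldet T.L := by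
    rw [eq_div_iff h]
    simp only [fdet, rdet]
    rw [hc (e 0), hc (e 1), hc (e 2)]
    simp only [Ldet, rdet]
    ring
  have k1 : c 1 = fdet (T.L 0) f (T.L 2) / Ldet T.L := by
    rw [eq_div_iff h]
    simp only [fdet, rdet]
    rw [hc (e 0), hc (e 1), hc (e 2)]
    simp only [Ldet, rdet]
    ring
  have k2 : c 2 = fdet (T.L 0) (T.L 1) f / Ldet T.L := by
    rw [eq_div_iff h]
    simp only [fdet, rdet]
    rw [hc (e 0), hc (e 1), hc (e 2)]
    simp only [Ldet, rdet]
    ring
  ext i
  fin_cases i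
  · exact k0
  · exact k1
  · exact k2

theorem L_ne {y : IVec} (hy : y ≠ 0) (i : Fin 3) : T.L i y ≠ 0 := by
  intro h
  have := T.norm_ge y hy
  have h2 : T.L 0 y * T.L 1 y * T.L 2 y = 0 := by
    fin_cases i <;> simp at h <;> simp [h]
  rw [h2, abs_zero] at this
  linarith [T.δ_pos]

theorem L_inj {x y : IVec} (i : Fin 3) (h : T.L i x = T.L i y) : x = y := by
  by_contra hne
  have := T.L_ne (sub_ne_zero.mpr hne) i
  apply this
  rw [map_sub, h, sub_self]

/-- thin vectors in the cone -/
theorem thin (i : Fin 3) (t : ℝ) (ht : 0 < t) :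
    ∃ y ∈ T.S, (∀ j, j ≠ i → T.L j y < t) ∧ T.δ / t ^ 2 < T.L i y := by
  obtain ⟨K, hK, hbox⟩ := box T.L T.ldet T.δ T.δ_pos T.norm_ge
  obtain ⟨y, hy⟩ := hbox (fun j => if j = i then K / t ^ 2 else t) (by
    intro j
    split_ifs
    · positivity
    · exact ht) (by
    have : K / t ^ 2 * t * t = K := by field_simp
    fin_cases i <;> simp <;> nlinarith)
  have hyS : y ∈ T.S := fun j => (hy j).1
  have hyt : ∀ j, j ≠ i → T.L j y < t := by
    intro j hj
    have := (hy j).2
    simpa [hj] using this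
  refine ⟨y, hyS, hyt, ?_⟩
  have hy0 : y ≠ 0 := by
    rintro rfl
    have := hyS 0
    simp at this
  have hN := T.norm_ge y hy0
  have p0 := hyS 0
  have p1 := hyS 1
  have p2 := hyS 2
  rw [abs_of_pos (mul_pos (mul_pos p0 p1) p2)] at hN
  rw [div_lt_iff₀ (by positivity)]
  fin_cases i
  · have h1 := hyt 1 (by decide)
    have h2 := hyt 2 (by decide)
    have : T.L 1 y * T.L 2 y < t ^ 2 := by nlinarith
    simp only [Fin.zero_eta]
    nlinarith
  · have h1 := hyt 0 (by decide)
    have h2 := hyt 2 (by decide)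
    have : T.L 0 y * T.L 2 y < t ^ 2 := by nlinarith
    simp only [Fin.mk_one]
    nlinarith
  · have h1 := hyt 0 (by decide)
    have h2 := hyt 1 (by decide)
    have : T.L 0 y * T.L 1 y < t ^ 2 := by nlinarith
    simp only [Fin.reduceFinMk]
    nlinarith

theorem S_nonempty : ∃ y, y ∈ T.S := by
  obtain ⟨y, hy, _⟩ := T.thin 0 1 one_pos
  exact ⟨y, hy⟩

theorem mul_le_abs_mul {c x t : ℝ} (hx : 0 < x) (hxt : x < t) : c * x ≤ |c| * t := by
  have h1 : c * x ≤ |c| * x := mul_le_mul_of_nonneg_right (le_abs_self c) hx.le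
  have h2 : |c| * x ≤ |c| * t := mul_le_mul_of_nonneg_left hxt.le (abs_nonneg c)
  linarith

/-- forms that are at least one on `S` have positive coefficients -/
theorem pos {f : Form} (hf : ∀ y ∈ T.S, 1 ≤ f y) (i : Fin 3) : 0 < T.coef f i := by
  by_contra hcon
  push Not at hcon
  set c := T.coef f with hc
  set M := 1 + |c 0| + |c 1| + |c 2| with hM
  have a0 := abs_nonneg (c 0)
  have a1 := abs_nonneg (c 1)
  have a2 := abs_nonneg (c 2)
  have hMpos : 0 < M := by linarith
  obtain ⟨y, hyS, hyt, _⟩ := T.thin i (1 / M) (by positivity)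
  have h1 := hf y hyS
  rw [T.coef_spec f y, ← hc] at h1
  have p0 := hyS 0
  have p1 := hyS 1
  have p2 := hyS 2
  have hfr : (|c 0| + |c 1| + |c 2|) * (1 / M) < 1 := by
    rw [mul_one_div, div_lt_one hMpos]; linarith
  have hM' : 0 < 1 / M := by positivity
  fin_cases i
  · simp only [Fin.zero_eta] at hcon
    have e1 := mul_le_abs_mul (c := c 1) p1 (hyt 1 (by decide))
    have e2 := mul_le_abs_mul (c := c 2) p2 (hyt 2 (by decide))
    nlinarith [mul_nonneg a0 hM'.le]
  · simp only [Fin.mk_one] at hcon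
    have e1 := mul_le_abs_mul (c := c 0) p0 (hyt 0 (by decide))
    have e2 := mul_le_abs_mul (c := c 2) p2 (hyt 2 (by decide))
    nlinarith [mul_nonneg a1 hM'.le]
  · simp only [Fin.reduceFinMk] at hcon
    have e1 := mul_le_abs_mul (c := c 0) p0 (hyt 0 (by decide))
    have e2 := mul_le_abs_mul (c := c 1) p1 (hyt 1 (by decide))
    nlinarith [mul_nonneg a2 hM'.le]

/-- forms with a negative coefficient are negative somewhere on `S` -/
theorem negc {f : Form} (i : Fin 3) (hi : T.coef f i < 0) : ∃ y ∈ T.S, f y < 0 := by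
  set c := T.coef f with hc
  -- choose t with |c j| t + |c k| t < (-c i) δ / t^2
  set M := 1 + |c 0| + |c 1| + |c 2| with hM
  have a0 := abs_nonneg (c 0)
  have a1 := abs_nonneg (c 1)
  have a2 := abs_nonneg (c 2)
  have hMpos : 0 < M := by linarith
  set q := (-(c i)) * T.δ with hq
  have hqpos : 0 < q := mul_pos (by linarith) T.δ_pos
  set t := min 1 (q / M) with ht
  have htpos : 0 < t := lt_min one_pos (by positivity)
  have ht1 : t ≤ 1 := min_le_left _ _
  have ht2 : t * M ≤ q := by
    have : t ≤ q / M := min_le_right _ _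
    rwa [le_div_iff₀ hMpos] at this
  obtain ⟨y, hyS, hyt, hyi⟩ := T.thin i t htpos
  refine ⟨y, hyS, ?_⟩
  rw [T.coef_spec f y, ← hc]
  have p0 := hyS 0
  have p1 := hyS 1
  have p2 := hyS 2
  have h3 : c i * T.L i y < c i * (T.δ / t ^ 2) := mul_lt_mul_of_neg_left hyi hi
  have h4 : c i * (T.δ / t ^ 2) ≤ - (t * M) := by
    have : c i * (T.δ / t ^ 2) = - (q / t ^ 2) := by rw [hq]; ring
    rw [this]
    have h5 : q ≤ q / t ^ 2 := by
      rw [le_div_iff₀ (by positivity)]
      have : t ^ 2 ≤ 1 := by nlinarith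
      nlinarith
    linarith
  fin_cases i
  · simp only [Fin.zero_eta] at *
    have e1 := mul_le_abs_mul (c := c 1) p1 (hyt 1 (by decide))
    have e2 := mul_le_abs_mul (c := c 2) p2 (hyt 2 (by decide))
    nlinarith [mul_nonneg a0 htpos.le]
  · simp only [Fin.mk_one] at *
    have e1 := mul_le_abs_mul (c := c 0) p0 (hyt 0 (by decide))
    have e2 := mul_le_abs_mul (c := c 2) p2 (hyt 2 (by decide))
    nlinarith [mul_nonneg a1 htpos.le]
  · simp only [Fin.reduceFinMk] at *
    have e1 := mul_le_abs_mul (c := c 0) p0 (hyt 0 (by decide))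
    have e2 := mul_le_abs_mul (c := c 1) p1 (hyt 1 (by decide))
    nlinarith [mul_nonneg a2 htpos.le]

/-- coordinate forms -/
def coordForm (j : Fin 3) : Form where
  toFun y := (y j : ℝ)
  map_add' x y := by simp
  map_smul' m x := by simp

theorem finite_of_bdd (B : ℝ) : {y : IVec | ∀ i, 0 < T.L i y ∧ T.L i y ≤ B}.Finite := by
  let M : Fin 3 → ℝ := fun j =>
    (|T.coef (coordForm j) 0| + |T.coef (coordForm j) 1| + |T.coef (coordForm j) 2|) * B
  let N : IVec := fun j => ⌈M j⌉
  apply Set.Finite.subset (Set.finite_Icc (-N) N)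
  intro y hy
  have hb : ∀ j, |(y j : ℝ)| ≤ M j := by
    intro j
    have h1 : (y j : ℝ) = coordForm j y := rfl
    rw [h1, T.coef_spec (coordForm j) y]
    have aux : ∀ i, |T.coef (coordForm j) i * T.L i y| ≤ |T.coef (coordForm j) i| * B := by
      intro i
      rw [abs_mul, abs_of_pos (hy i).1]
      exact mul_le_mul_of_nonneg_left (hy i).2 (abs_nonneg _)
    have h3 := abs_add_three (T.coef (coordForm j) 0 * T.L 0 y) (T.coef (coordForm j) 1 * T.L 1 y)
      (T.coef (coordForm j) 2 * T.L 2 y)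
    have := aux 0
    have := aux 1
    have := aux 2
    simp only [M]
    linarith
  have hb' : ∀ j, |y j| ≤ N j := by
    intro j
    have h1 := hb j
    have h2 : ((|y j| : ℤ) : ℝ) ≤ M j := by push_cast; exact h1
    have h3 : ((|y j| : ℤ) : ℝ) ≤ ((⌈M j⌉ : ℤ) : ℝ) := le_trans h2 (Int.le_ceil _)
    exact_mod_cast h3
  rw [Set.mem_Icc]
  constructor
  · intro j
    have := (abs_le.mp (hb' j)).1
    simpa using this
  · intro j
    exact (abs_le.mp (hb' j)).2

theorem fin_set {f : Form} (hf : ∀ i, 0 < T.coef f i) (K : ℝ) : {y ∈ T.S | f y ≤ K}.Finite := by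
  set c := T.coef f with hc
  let B := max (max (K / c 0) (K / c 1)) (K / c 2)
  apply Set.Finite.subset (T.finite_of_bdd B)
  rintro y ⟨hyS, hyK⟩ i
  refine ⟨hyS i, ?_⟩
  rw [T.coef_spec f y, ← hc] at hyK
  have p0 := mul_pos (hf 0) (hyS 0)
  have p1 := mul_pos (hf 1) (hyS 1)
  have p2 := mul_pos (hf 2) (hyS 2)
  fin_cases i
  · have : T.L 0 y ≤ K / c 0 := by
      rw [le_div_iff₀ (hf 0)]; linarith
    exact le_trans this (le_trans (le_max_left _ _) (le_max_left _ _))
  · have : T.L 1 y ≤ K / c 1 := by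
      rw [le_div_iff₀ (hf 1)]; linarith
    exact le_trans this (le_trans (le_max_right _ _) (le_max_left _ _))
  · have : T.L 2 y ≤ K / c 2 := by
      rw [le_div_iff₀ (hf 2)]; linarith
    exact le_trans this (le_max_right _ _)

theorem coef_add_smul (f g : Form) (t : ℝ) (i : Fin 3) :
    T.coef (f + t • g) i = T.coef f i + t * T.coef g i := by
  have := T.coef_unique (f + t • g) (fun i => T.coef f i + t * T.coef g i) (by
    intro y
    simp only [LinearMap.add_apply, LinearMap.smul_apply, smul_eq_mul]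
    rw [T.coef_spec f y, T.coef_spec g y]
    ring)
  exact (congrFun this i).symm

def Feas (f G : Form) : Prop := ∀ y ∈ T.S, 1 ≤ f y ∧ (f y = 1 → G y ≤ (T.L 0 y) ^ 2)

def Tight (f G : Form) (y : IVec) : Prop := y ∈ T.S ∧ f y = 1 ∧ G y = (T.L 0 y) ^ 2

theorem rotate {f G g : Form} (h : T.Feas f G) (hneg : ∃ y ∈ T.S, g y < 0) :
    ∃ t s : ℝ, T.Feas (f + t • g) (G + s • g) ∧
      ∃ w, T.Tight (f + t • g) (G + s • g) w ∧ g w < 0 := by
  obtain ⟨y₀, hy₀S, hy₀⟩ := hneg
  let tt : IVec → ℝ := fun y => (f y - 1) / (-(g y))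
  let ss : IVec → ℝ := fun y => (G y - (T.L 0 y) ^ 2) / (-(g y))
  let Y : Set IVec := {y | y ∈ T.S ∧ g y < 0}
  have htt : ∀ y ∈ Y, 0 ≤ tt y := by
    rintro y ⟨hyS, hy⟩
    apply div_nonneg
    · linarith [(h y hyS).1]
    · linarith
  have hne : (tt '' Y).Nonempty := ⟨tt y₀, y₀, ⟨hy₀S, hy₀⟩, rfl⟩
  have hbdd : BddBelow (tt '' Y) := ⟨0, by rintro _ ⟨y, hy, rfl⟩; exact htt y hy⟩
  set ts := sInf (tt '' Y) with hts
  have hts0 : 0 ≤ ts := le_csInf hne (by rintro _ ⟨y, hy, rfl⟩; exact htt y hy)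
  have hstar : ∀ y ∈ T.S, 1 ≤ (f + ts • g) y := by
    intro y hyS
    simp only [LinearMap.add_apply, LinearMap.smul_apply, smul_eq_mul]
    have h1 := (h y hyS).1
    by_cases hy : g y < 0
    · have h2 : ts ≤ tt y := csInf_le hbdd ⟨y, ⟨hyS, hy⟩, rfl⟩
      simp only [tt] at h2
      rw [le_div_iff₀ (by linarith)] at h2
      linarith
    · push Not at hy
      nlinarith [mul_nonneg hts0 hy]
  have hcpos := T.pos hstar
  -- choose t' > ts
  obtain ⟨u, hu, hu'⟩ : ∃ u : ℝ, 0 < u ∧ ∀ i, 0 < T.coef (f + (ts + u) • g) i := by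
    set m : Fin 3 → ℝ := fun i => T.coef (f + ts • g) i / (1 + |T.coef g i|) with hm
    have hmpos : ∀ i, 0 < m i := fun i => div_pos (hcpos i) (by positivity)
    refine ⟨min (min (m 0) (m 1)) (m 2) / 2, ?_, ?_⟩
    · have := lt_min (lt_min (hmpos 0) (hmpos 1)) (hmpos 2)
      linarith
    · intro i
      have hle : min (min (m 0) (m 1)) (m 2) ≤ m i := by
        fin_cases i
        · exact le_trans (min_le_left _ _) (min_le_left _ _)
        · exact le_trans (min_le_left _ _) (min_le_right _ _)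
        · exact min_le_right _ _
      have hpos : 0 < min (min (m 0) (m 1)) (m 2) :=
        lt_min (lt_min (hmpos 0) (hmpos 1)) (hmpos 2)
      set u := min (min (m 0) (m 1)) (m 2) / 2 with hu
      have hui : u < m i := by linarith
      have hupos : 0 < u := by linarith
      rw [coef_add_smul]
      have h1 := T.coef_add_smul f g ts i
      have h2 : u * (1 + |T.coef g i|) < T.coef (f + ts • g) i := by
        have := hui
        simp only [hm] at this
        rwa [lt_div_iff₀ (by positivity)] at this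
      have h3 : -(u * |T.coef g i|) ≤ u * T.coef g i := by
        have := neg_abs_le (T.coef g i)
        nlinarith
      nlinarith
  set t' := ts + u with ht'
  have hFfin := T.fin_set hu' 1
  obtain ⟨_, ⟨y₁, hy₁, rfl⟩, hy₁t⟩ : ∃ b ∈ tt '' Y, b < t' :=
    exists_lt_of_csInf_lt hne (by linarith)
  let F' : Set IVec := {y | y ∈ Y ∧ tt y < t'}
  have hF'sub : F' ⊆ {y ∈ T.S | (f + t' • g) y ≤ 1} := by
    rintro y ⟨⟨hyS, hy⟩, hyt⟩
    refine ⟨hyS, ?_⟩
    simp only [LinearMap.add_apply, LinearMap.smul_apply, smul_eq_mul]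
    simp only [tt] at hyt
    rw [div_lt_iff₀ (by linarith)] at hyt
    linarith
  have hF'fin : F'.Finite := hFfin.subset hF'sub
  obtain ⟨y₂, hy₂, hy₂min⟩ := hF'fin.toFinset.exists_min_image tt ⟨y₁, by
    rw [Set.Finite.mem_toFinset]; exact ⟨hy₁, hy₁t⟩⟩
  rw [Set.Finite.mem_toFinset] at hy₂
  obtain ⟨w, hw, hwmax⟩ := (hF'fin.toFinset.filter (fun y => tt y = tt y₂)).exists_max_image ss
    ⟨y₂, by rw [Finset.mem_filter, Set.Finite.mem_toFinset]; exact ⟨hy₂, rfl⟩⟩
  rw [Finset.mem_filter, Set.Finite.mem_toFinset] at hw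
  obtain ⟨⟨⟨hwS, hwneg⟩, hwt'⟩, hwt⟩ := hw
  have hmin : ∀ y ∈ Y, tt w ≤ tt y := by
    intro y hy
    by_cases hyt : tt y < t'
    · rw [hwt]
      exact hy₂min y (by rw [Set.Finite.mem_toFinset]; exact ⟨hy, hyt⟩)
    · push Not at hyt
      linarith
  have hmax : ∀ y ∈ Y, tt y = tt w → ss y ≤ ss w := by
    intro y hy hyt
    apply hwmax y
    rw [Finset.mem_filter, Set.Finite.mem_toFinset]
    exact ⟨⟨hy, by rw [hyt]; exact hwt'⟩, by rw [hyt, hwt]⟩
  have hw0 : 0 ≤ tt w := htt w ⟨hwS, hwneg⟩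
  refine ⟨tt w, ss w, ?_, w, ⟨hwS, ?_, ?_⟩, hwneg⟩
  · intro y hyS
    simp only [LinearMap.add_apply, LinearMap.smul_apply, smul_eq_mul]
    obtain ⟨h1, h2⟩ := h y hyS
    rcases lt_trichotomy (g y) 0 with hy | hy | hy
    · have h3 := hmin y ⟨hyS, hy⟩
      have h4 : tt w * (-(g y)) ≤ f y - 1 := by
        rw [← le_div_iff₀ (by linarith)]; exact h3
      refine ⟨by linarith, ?_⟩
      intro h5
      have h6 : tt y = tt w := by
        simp only [tt]
        rw [div_eq_iff (by linarith)]
        simp only [tt] at h5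
        linarith
      have h7 := hmax y ⟨hyS, hy⟩ h6
      have h8 : G y - (T.L 0 y) ^ 2 ≤ ss w * (-(g y)) := by
        rw [← div_le_iff₀ (by linarith)]; exact h7
      linarith
    · rw [hy]
      refine ⟨by linarith, ?_⟩
      intro h5
      have := h2 (by linarith)
      linarith
    · refine ⟨by nlinarith [mul_nonneg hw0 hy.le], ?_⟩
      intro h5
      have h6 : tt w * g y = 0 := by
        have := mul_nonneg hw0 hy.le
        linarith
      have h7 : tt w = 0 := by
        rcases mul_eq_zero.mp h6 with h | h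
        · exact h
        · linarith
      have h8 : f y = 1 := by rw [h7] at h5; linarith
      have h9 := h2 h8
      -- ss w ≤ 0
      have h10 : f w = 1 := by
        simp only [tt] at h7
        rw [div_eq_zero_iff] at h7
        rcases h7 with h | h
        · linarith
        · linarith
      have h11 := (h w hwS).2 h10
      have h12 : ss w ≤ 0 := by
        apply div_nonpos_of_nonpos_of_nonneg
        · linarith
        · linarith
      nlinarith [mul_nonneg (neg_nonneg.mpr h12) hy.le]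
  · simp only [LinearMap.add_apply, LinearMap.smul_apply, smul_eq_mul, tt]
    have : g w ≠ 0 := hwneg.ne
    field_simp
    ring
  · simp only [LinearMap.add_apply, LinearMap.smul_apply, smul_eq_mul, ss]
    have : g w ≠ 0 := hwneg.ne
    field_simp
    ring

end Setup

end KCore

namespace KCore

theorem cramer (a b c x : IVec) :
    det3 a b c • x = det3 x b c • a + det3 a x c • b + det3 a b x • c := by
  ext i
  fin_cases i <;> simp [det3] <;> ring

/-- the linear form `y ↦ det3 a b y` -/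
def detForm (a b : IVec) : Form where
  toFun y := (det3 a b y : ℝ)
  map_add' x y := by simp [det3]; ring
  map_smul' m x := by simp [det3]; ring

theorem detForm_apply (a b y : IVec) : detForm a b y = (det3 a b y : ℝ) := rfl

/-- cross product -/
def cross (a b : IVec) : IVec :=
  ![a 1 * b 2 - a 2 * b 1, a 2 * b 0 - a 0 * b 2, a 0 * b 1 - a 1 * b 0]

namespace Setup

variable (T : Setup)

theorem exists_start : ∃ f G y, T.Feas f G ∧ T.Tight f G y := by
  let h : Form := T.L 0 + T.L 1 + T.L 2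
  have hh : ∀ y, h y = T.L 0 y + T.L 1 y + T.L 2 y := fun y => rfl
  have hcoef : (fun _ => (1 : ℝ)) = T.coef h := T.coef_unique h (fun _ => 1) (by
    intro y; rw [hh]; ring)
  have hpos : ∀ i, 0 < T.coef h i := by
    intro i; rw [← hcoef]; exact one_pos
  obtain ⟨z, hz⟩ := T.S_nonempty
  have hfin := T.fin_set hpos (h z)
  obtain ⟨y₀, hy₀, hmin⟩ := hfin.toFinset.exists_min_image h ⟨z, by
    rw [Set.Finite.mem_toFinset]; exact ⟨hz, le_rfl⟩⟩
  rw [Set.Finite.mem_toFinset] at hy₀
  obtain ⟨hy₀S, hy₀z⟩ := hy₀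
  have hmin' : ∀ y ∈ T.S, h y₀ ≤ h y := by
    intro y hy
    by_cases hyz : h y ≤ h z
    · exact hmin y (by rw [Set.Finite.mem_toFinset]; exact ⟨hy, hyz⟩)
    · push Not at hyz; linarith
  have hy₀pos : 0 < h y₀ := by
    rw [hh]
    have := hy₀S 0
    have := hy₀S 1
    have := hy₀S 2
    linarith
  let f : Form := (h y₀)⁻¹ • h
  have hf : ∀ y, f y = (h y₀)⁻¹ * h y := fun y => rfl
  let G : Form := (2 * T.L 0 y₀) • T.L 0 - ((T.L 0 y₀) ^ 2) • f
  have hG : ∀ y, G y = (2 * T.L 0 y₀) * T.L 0 y - (T.L 0 y₀) ^ 2 * f y := fun y => rfl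
  refine ⟨f, G, y₀, ?_, hy₀S, ?_, ?_⟩
  · intro y hy
    constructor
    · rw [hf, inv_mul_eq_div, le_div_iff₀ hy₀pos, one_mul]
      exact hmin' y hy
    · intro h1
      rw [hG, h1]
      nlinarith [sq_nonneg (T.L 0 y - T.L 0 y₀)]
  · rw [hf]; exact inv_mul_cancel₀ hy₀pos.ne'
  · rw [hG]
    have : f y₀ = 1 := by rw [hf]; exact inv_mul_cancel₀ hy₀pos.ne'
    rw [this]; ring

theorem tight_stable {f G g : Form} {t s : ℝ} {y : IVec} (h : T.Tight f G y) (hg : g y = 0) :
    T.Tight (f + t • g) (G + s • g) y := by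
  obtain ⟨h1, h2, h3⟩ := h
  refine ⟨h1, ?_, ?_⟩
  · simp only [LinearMap.add_apply, LinearMap.smul_apply, smul_eq_mul]; rw [hg, h2]; ring
  · simp only [LinearMap.add_apply, LinearMap.smul_apply, smul_eq_mul]; rw [hg, h3]; ring

/-- darts: positively oriented tight triples -/
def IsDart (a b c : IVec) : Prop :=
  0 < det3 a b c ∧ ∃ f G, T.Feas f G ∧ T.Tight f G a ∧ T.Tight f G b ∧ T.Tight f G c

theorem exists_dart : ∃ a b c, T.IsDart a b c := by
  obtain ⟨f, G, y₀, hF, hy₀⟩ := T.exists_start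
  have hy₀S := hy₀.1
  -- first rotation
  let g : Form := (T.L 1 y₀) • T.L 0 - (T.L 0 y₀) • T.L 1
  have hg : ∀ y, g y = T.L 1 y₀ * T.L 0 y - T.L 0 y₀ * T.L 1 y := fun y => rfl
  have hgc : (![T.L 1 y₀, - T.L 0 y₀, 0] : Fin 3 → ℝ) = T.coef g := T.coef_unique g _ (by
    intro y
    rw [hg]
    simp only [Matrix.cons_val_zero, Matrix.cons_val_one, Matrix.cons_val]
    ring)
  have hneg : ∃ y ∈ T.S, g y < 0 := T.negc (f := g) 1 (by
    rw [← hgc]
    simp only [Matrix.cons_val_one, Matrix.cons_val_zero]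
    linarith [hy₀S 0])
  obtain ⟨t, s, hF1, u, hu, hgu⟩ := T.rotate hF hneg
  have hgy₀ : g y₀ = 0 := by rw [hg]; ring
  have hy₀' := T.tight_stable (t := t) (s := s) hy₀ hgy₀
  set f1 := f + t • g
  set G1 := G + s • g
  -- second rotation
  have hndz : ∃ j, detForm y₀ u (e j) ≠ 0 := by
    by_contra hcon
    push Not at hcon
    have h0 := hcon 0
    have h1 := hcon 1
    have h2 := hcon 2
    simp only [detForm_apply, Int.cast_eq_zero] at h0 h1 h2
    simp [det3, e] at h0 h1 h2
    -- cross product zero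
    have k : ∀ j, g u * (y₀ j : ℝ) = g y₀ * (u j : ℝ) := by
      intro j
      rw [form_apply g u, form_apply g y₀]
      have h0' : (y₀ 1 : ℝ) * u 2 = u 1 * y₀ 2 := by exact_mod_cast (by linarith : y₀ 1 * u 2 = u 1 * y₀ 2)
      have h1' : (y₀ 0 : ℝ) * u 2 = u 0 * y₀ 2 := by exact_mod_cast (by linarith : y₀ 0 * u 2 = u 0 * y₀ 2)
      have h2' : (y₀ 0 : ℝ) * u 1 = u 0 * y₀ 1 := by exact_mod_cast (by linarith : y₀ 0 * u 1 = u 0 * y₀ 1)
      fin_cases j
      · simp only [Fin.zero_eta]
        linear_combination (g (e 1)) * h2' + g (e 2) * h1'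
      · simp only [Fin.mk_one]
        linear_combination (-g (e 0)) * h2' + g (e 2) * h0'
      · simp only [Fin.reduceFinMk]
        linear_combination (-g (e 0)) * h1' - g (e 1) * h0'
    rw [hgy₀] at k
    have hy₀0 : y₀ = 0 := by
      ext j
      have := k j
      rw [zero_mul] at this
      rcases mul_eq_zero.mp this with h | h
      · linarith
      · exact_mod_cast h
    have := hy₀S 0
    rw [hy₀0] at this
    simp at this
  have hneg2 : ∃ y ∈ T.S, detForm y₀ u y < 0 := by
    have hsum := T.coef_spec (detForm y₀ u) y₀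
    have hz : detForm y₀ u y₀ = 0 := by
      rw [detForm_apply]; simp [det3]; ring
    rw [hz] at hsum
    by_contra hcon
    have hall : ∀ i, 0 ≤ T.coef (detForm y₀ u) i := by
      intro i
      by_contra hi
      push Not at hi
      exact hcon (T.negc i hi)
    have p0 := hy₀S 0
    have p1 := hy₀S 1
    have p2 := hy₀S 2
    have q0 := mul_nonneg (hall 0) p0.le
    have q1 := mul_nonneg (hall 1) p1.le
    have q2 := mul_nonneg (hall 2) p2.le
    have z0 : T.coef (detForm y₀ u) 0 = 0 := by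
      rcases mul_eq_zero.mp (by linarith : T.coef (detForm y₀ u) 0 * T.L 0 y₀ = 0) with h | h
      · exact h
      · linarith
    have z1 : T.coef (detForm y₀ u) 1 = 0 := by
      rcases mul_eq_zero.mp (by linarith : T.coef (detForm y₀ u) 1 * T.L 1 y₀ = 0) with h | h
      · exact h
      · linarith
    have z2 : T.coef (detForm y₀ u) 2 = 0 := by
      rcases mul_eq_zero.mp (by linarith : T.coef (detForm y₀ u) 2 * T.L 2 y₀ = 0) with h | h
      · exact h
      · linarith
    obtain ⟨j, hj⟩ := hndz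
    apply hj
    rw [T.coef_spec (detForm y₀ u) (e j), z0, z1, z2]
    ring
  obtain ⟨t2, s2, hF2, w, hw, hgw⟩ := T.rotate hF1 hneg2
  refine ⟨u, y₀, w, ?_, _, _, hF2, ?_, ?_, hw⟩
  · rw [detForm_apply] at hgw
    have h1 : det3 y₀ u w < 0 := by exact_mod_cast hgw
    have h2 : det3 u y₀ w = - det3 y₀ u w := by simp [det3]; ring
    omega
  · apply T.tight_stable hu
    rw [detForm_apply]; simp [det3]; ring
  · apply T.tight_stable hy₀'
    rw [detForm_apply]; simp [det3]; ring

variable {T}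

theorem IsDart.rot {a b c : IVec} (h : T.IsDart a b c) : T.IsDart b c a := by
  obtain ⟨h1, f, G, hF, ha, hb, hc⟩ := h
  refine ⟨?_, f, G, hF, hb, hc, ha⟩
  have : det3 b c a = det3 a b c := by simp [det3]; ring
  rw [this]; exact h1

theorem IsDart.across {a b c : IVec} (h : T.IsDart a b c) : ∃ c', T.IsDart b a c' := by
  obtain ⟨h1, f, G, hF, ha, hb, hc⟩ := h
  have hneg : ∃ y ∈ T.S, detForm a b y < 0 := by
    -- the form vanishes at `a` and is nonzero
    have hsum := T.coef_spec (detForm a b) a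
    have hz : detForm a b a = 0 := by
      rw [detForm_apply]; simp [det3]; ring
    rw [hz] at hsum
    by_contra hcon
    have hall : ∀ i, 0 ≤ T.coef (detForm a b) i := by
      intro i
      by_contra hi
      push Not at hi
      exact hcon (T.negc i hi)
    have p0 := ha.1 0
    have p1 := ha.1 1
    have p2 := ha.1 2
    have q0 := mul_nonneg (hall 0) p0.le
    have q1 := mul_nonneg (hall 1) p1.le
    have q2 := mul_nonneg (hall 2) p2.le
    have z0 : T.coef (detForm a b) 0 = 0 := by
      rcases mul_eq_zero.mp (by linarith : T.coef (detForm a b) 0 * T.L 0 a = 0) with h | h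
      · exact h
      · linarith
    have z1 : T.coef (detForm a b) 1 = 0 := by
      rcases mul_eq_zero.mp (by linarith : T.coef (detForm a b) 1 * T.L 1 a = 0) with h | h
      · exact h
      · linarith
    have z2 : T.coef (detForm a b) 2 = 0 := by
      rcases mul_eq_zero.mp (by linarith : T.coef (detForm a b) 2 * T.L 2 a = 0) with h | h
      · exact h
      · linarith
    have h3 := T.coef_spec (detForm a b) c
    rw [z0, z1, z2, detForm_apply] at h3
    have h4 : (det3 a b c : ℝ) = 0 := by rw [h3]; ring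
    have h5 : det3 a b c = 0 := by exact_mod_cast h4
    omega
  obtain ⟨t, s, hF2, w, hw, hgw⟩ := T.rotate hF hneg
  refine ⟨w, ?_, _, _, hF2, ?_, ?_, hw⟩
  · rw [detForm_apply] at hgw
    have h1 : det3 a b w < 0 := by exact_mod_cast hgw
    have h2 : det3 b a w = - det3 a b w := by simp [det3]; ring
    omega
  · apply T.tight_stable hb
    rw [detForm_apply]; simp [det3]; ring
  · apply T.tight_stable ha
    rw [detForm_apply]; simp [det3]; ring

/-- integrality of the supporting form -/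
theorem integral {a b c : IVec} {f : Form} (hd : 0 < det3 a b c) (hf : ∀ y ∈ T.S, 1 ≤ f y)
    (haS : a ∈ T.S) (hbS : b ∈ T.S) (hcS : c ∈ T.S) (ha : f a = 1) (hb : f b = 1) (hc : f c = 1) :
    ∃ g : IVec, ∀ y, f y = (dotp g y : ℝ) := by
  classical
  -- some positive multiple is integral
  have hex : ∃ n : ℕ, 0 < n ∧ ∃ g : IVec, ∀ y, (n : ℝ) * f y = (dotp g y : ℝ) := by
    refine ⟨(det3 a b c).toNat, by omega, cross b c + cross c a + cross a b, ?_⟩
    intro y
    have h1 : (((det3 a b c).toNat : ℕ) : ℝ) = ((det3 a b c : ℤ) : ℝ) := by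
      have : (((det3 a b c).toNat : ℕ) : ℤ) = det3 a b c := Int.toNat_of_nonneg hd.le
      exact_mod_cast this
    rw [h1]
    have h2 := congrArg f (cramer a b c y)
    simp only [map_add, map_smul, zsmul_eq_mul] at h2
    have h3 : f (det3 a b c • y) = (det3 a b c : ℝ) * f y := by
      rw [map_smul, zsmul_eq_mul]
    rw [← h3, cramer a b c y, map_add, map_add, map_smul, map_smul, map_smul, ha, hb, hc]
    simp only [zsmul_eq_mul, mul_one]
    norm_cast
    simp only [det3, dotp, cross, Pi.add_apply, Matrix.cons_val_zero, Matrix.cons_val_one,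
      Matrix.cons_val]
    ring
  obtain ⟨hn, g, hg⟩ := Nat.find_spec hex
  set n := Nat.find hex with hndef
  have hprim : ∀ d : ℤ, d ∣ g 0 → d ∣ g 1 → d ∣ g 2 → IsUnit d := by
    intro d h0 h1 h2
    obtain ⟨g0, hg0⟩ := h0
    obtain ⟨g1, hg1⟩ := h1
    obtain ⟨g2, hg2⟩ := h2
    have h3 : (n : ℤ) = d * dotp ![g0, g1, g2] a := by
      have h4 := hg a
      rw [ha, mul_one] at h4
      have h5 : (n : ℤ) = dotp g a := by exact_mod_cast h4
      rw [h5]
      simp only [dotp, Matrix.cons_val_zero, Matrix.cons_val_one, Matrix.cons_val]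
      rw [hg0, hg1, hg2]; ring
    by_contra hu
    have hdne : d ≠ 0 := by
      rintro rfl
      rw [zero_mul] at h3
      omega
    have habs : 2 ≤ |d| := by
      have h6 : 0 < |d| := abs_pos.mpr hdne
      have h7 : |d| ≠ 1 := by
        intro h8
        exact hu (Int.isUnit_iff_abs_eq.mpr h8)
      omega
    -- n / |d| works too
    set m := (dotp ![g0, g1, g2] a).natAbs with hm
    have hnm : n = d.natAbs * m := by
      have := congrArg Int.natAbs h3
      rw [Int.natAbs_mul] at this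
      simpa using this
    have hmpos : 0 < m := by
      rcases Nat.eq_zero_or_pos m with h | h
      · rw [h, mul_zero] at hnm; omega
      · exact h
    have hdabs : 2 ≤ d.natAbs := by
      have := Int.natCast_natAbs d
      omega
    have hlt : m < n := by rw [hnm]; nlinarith
    apply Nat.find_min hex hlt
    refine ⟨hmpos, d.sign • ![g0, g1, g2], ?_⟩
    intro y
    have h9 := hg y
    have h10 : (n : ℝ) = |(d : ℝ)| * m := by
      rw [hnm]; push_cast; rw [Nat.cast_natAbs]; push_cast; rfl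
    rw [h10] at h9
    have h11 : (dotp g y : ℝ) = (d : ℝ) * (dotp ![g0, g1, g2] y : ℝ) := by
      norm_cast
      simp only [dotp, Matrix.cons_val_zero, Matrix.cons_val_one, Matrix.cons_val]
      rw [hg0, hg1, hg2]; ring
    have h12 : (dotp (d.sign • ![g0, g1, g2]) y : ℝ) = (d.sign : ℝ) * (dotp ![g0, g1, g2] y : ℝ) := by
      norm_cast
      simp only [dotp, Pi.smul_apply, smul_eq_mul, Matrix.cons_val_zero, Matrix.cons_val_one, Matrix.cons_val]
      ring
    rw [h11] at h9
    rw [h12]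
    have h13 : (d : ℝ) = (d.sign : ℝ) * |(d : ℝ)| := by
      have := Int.sign_mul_abs d
      have h14 : ((d.sign * |d| : ℤ) : ℝ) = (d : ℝ) := by rw [this]
      push_cast at h14
      exact h14.symm
    have hdpos : 0 < |(d : ℝ)| := by
      have : (d : ℝ) ≠ 0 := by exact_mod_cast hdne
      exact abs_pos.mpr this
    have h16 : |(d : ℝ)| * ((m : ℝ) * f y) = |(d : ℝ)| * ((d.sign : ℝ) * (dotp ![g0, g1, g2] y : ℝ)) := by
      linear_combination h9 + (dotp ![g0, g1, g2] y : ℝ) * h13
    exact mul_left_cancel₀ hdpos.ne' h16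
  by_cases hn1 : n = 1
  · refine ⟨g, fun y => ?_⟩
    have := hg y
    rw [hn1] at this
    simpa using this
  · exfalso
    have hn2 : 2 ≤ n := by omega
    refine T.H g n hprim (by exact_mod_cast hn2) ?_ a b c haS hbS hcS ?_ ?_ ?_ hd.ne'
    · intro y hy
      have h1 := hf y hy
      have h2 := hg y
      have h3 : (n : ℝ) ≤ (dotp g y : ℝ) := by
        rw [← h2]
        have : (0 : ℝ) < n := by exact_mod_cast hn
        nlinarith
      exact_mod_cast h3
    · have := hg a
      rw [ha, mul_one] at this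
      exact_mod_cast this.symm
    · have := hg b
      rw [hb, mul_one] at this
      exact_mod_cast this.symm
    · have := hg c
      rw [hc, mul_one] at this
      exact_mod_cast this.symm

/-- no weighted lattice point in a tight triangle -/
theorem no_weights {a b c y : IVec} {f G : Form} (hd : 0 < det3 a b c) (hF : T.Feas f G)
    (ha : T.Tight f G a) (hb : T.Tight f G b) (hc : T.Tight f G c)
    {p q r : ℤ} (hp : 0 ≤ p) (hq : 0 ≤ q) (hr : 0 ≤ r) (hsum : p + q + r = det3 a b c)
    (hpd : p < det3 a b c ∨ (0 < q ∧ 0 < r)) (hqd : q < det3 a b c ∨ (0 < p ∧ 0 < r))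
    (hrd : r < det3 a b c ∨ (0 < p ∧ 0 < q))
    (hy : det3 a b c • y = p • a + q • b + r • c) : False := by
  set d := det3 a b c with hddef
  have hLy : ∀ h : Form, (d : ℝ) * h y = p * h a + q * h b + r * h c := by
    intro h
    have := congrArg h hy
    rw [map_add, map_add, map_smul, map_smul, map_smul, map_smul] at this
    simpa only [zsmul_eq_mul] using this
  have hdR : (0 : ℝ) < d := by exact_mod_cast hd
  have hpR : (0 : ℝ) ≤ p := by exact_mod_cast hp
  have hqR : (0 : ℝ) ≤ q := by exact_mod_cast hq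
  have hrR : (0 : ℝ) ≤ r := by exact_mod_cast hr
  have hsumR : (p : ℝ) + q + r = d := by exact_mod_cast hsum
  have hyS : y ∈ T.S := by
    intro i
    have h1 := hLy (T.L i)
    have h2 := ha.1 i
    have h3 := hb.1 i
    have h4 := hc.1 i
    -- minimum of the three values is positive
    set m := min (min (T.L i a) (T.L i b)) (T.L i c) with hm
    have hm0 : 0 < m := lt_min (lt_min h2 h3) h4
    have hma : m ≤ T.L i a := le_trans (min_le_left _ _) (min_le_left _ _)
    have hmb : m ≤ T.L i b := le_trans (min_le_left _ _) (min_le_right _ _)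
    have hmc : m ≤ T.L i c := min_le_right _ _
    have h5 : (d : ℝ) * m ≤ (d : ℝ) * T.L i y := by
      rw [h1, ← hsumR]
      nlinarith [mul_le_mul_of_nonneg_left hma hpR, mul_le_mul_of_nonneg_left hmb hqR,
        mul_le_mul_of_nonneg_left hmc hrR]
    have h6 := le_of_mul_le_mul_left h5 hdR
    linarith
  have hfy : f y = 1 := by
    have h1 := hLy f
    rw [ha.2.1, hb.2.1, hc.2.1] at h1
    have : (d : ℝ) * f y = d * 1 := by rw [h1]; linarith
    exact mul_left_cancel₀ hdR.ne' this
  have hGy := (hF y hyS).2 hfy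
  have hG := hLy G
  rw [ha.2.2, hb.2.2, hc.2.2] at hG
  have hL0 := hLy (T.L 0)
  set u := T.L 0 a
  set v := T.L 0 b
  set w := T.L 0 c
  set z := T.L 0 y
  have hab : a ≠ b := by
    intro h
    rw [h] at hddef
    have : det3 b b c = 0 := by simp [det3]; ring
    omega
  have hbc : b ≠ c := by
    intro h
    rw [h] at hddef
    have : det3 a c c = 0 := by simp [det3]; ring
    omega
  have hac : a ≠ c := by
    intro h
    rw [h] at hddef
    have : det3 c b c = 0 := by simp [det3]; ring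
    omega
  have huv : u ≠ v := fun h => hab (T.L_inj 0 h)
  have hvw : v ≠ w := fun h => hbc (T.L_inj 0 h)
  have huw : u ≠ w := fun h => hac (T.L_inj 0 h)
  have key : (p : ℝ) * q * (u - v) ^ 2 + q * r * (v - w) ^ 2 + p * r * (u - w) ^ 2 ≤ 0 := by
    have e1 : (p : ℝ) * q * (u - v) ^ 2 + q * r * (v - w) ^ 2 + p * r * (u - w) ^ 2
        = (p + q + r) * (p * u ^ 2 + q * v ^ 2 + r * w ^ 2) - (p * u + q * v + r * w) ^ 2 := by ring
    rw [e1, hsumR, ← hG, ← hL0]
    have : (d : ℝ) * (d * G y) - (d * z) ^ 2 = d ^ 2 * (G y - z ^ 2) := by ring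
    rw [this]
    apply mul_nonpos_of_nonneg_of_nonpos (by positivity)
    linarith
  have huv2 : 0 < (u - v) ^ 2 := by
    have := sub_ne_zero.mpr huv; positivity
  have hvw2 : 0 < (v - w) ^ 2 := by
    have := sub_ne_zero.mpr hvw; positivity
  have huw2 : 0 < (u - w) ^ 2 := by
    have := sub_ne_zero.mpr huw; positivity
  have t1 : 0 ≤ (p : ℝ) * q * (u - v) ^ 2 := by positivity
  have t2 : 0 ≤ (q : ℝ) * r * (v - w) ^ 2 := by positivity
  have t3 : 0 ≤ (p : ℝ) * r * (u - w) ^ 2 := by positivity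
  have z1 : (p : ℝ) * q = 0 := by
    have : (p : ℝ) * q * (u - v) ^ 2 = 0 := by linarith
    rcases mul_eq_zero.mp this with h | h
    · exact h
    · exact absurd h huv2.ne'
  have z2 : (q : ℝ) * r = 0 := by
    have : (q : ℝ) * r * (v - w) ^ 2 = 0 := by linarith
    rcases mul_eq_zero.mp this with h | h
    · exact h
    · exact absurd h hvw2.ne'
  have z3 : (p : ℝ) * r = 0 := by
    have : (p : ℝ) * r * (u - w) ^ 2 = 0 := by linarith
    rcases mul_eq_zero.mp this with h | h
    · exact h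
    · exact absurd h huw2.ne'
  have z1' : p * q = 0 := by exact_mod_cast z1
  have z2' : q * r = 0 := by exact_mod_cast z2
  have z3' : p * r = 0 := by exact_mod_cast z3
  have hp0 : p = 0 ∨ q = 0 := mul_eq_zero.mp z1'
  have hq0 : q = 0 ∨ r = 0 := mul_eq_zero.mp z2'
  have hr0 : p = 0 ∨ r = 0 := mul_eq_zero.mp z3'
  omega

theorem IsDart.det_eq_one {a b c : IVec} (h : T.IsDart a b c) : det3 a b c = 1 := by
  obtain ⟨hd, f, G, hF, ha, hb, hc⟩ := h
  by_contra hne
  have hd2 : 2 ≤ det3 a b c := by omega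
  obtain ⟨g, hg⟩ := integral hd (fun y hy => (hF y hy).1) ha.1 hb.1 hc.1 ha.2.1 hb.2.1 hc.2.1
  -- there is a vector outside the sublattice
  have hex : ∃ z : IVec, ¬ (det3 a b c ∣ det3 z b c ∧ det3 a b c ∣ det3 a z c ∧ det3 a b c ∣ det3 a b z) := by
    by_contra hcon
    push Not at hcon
    obtain ⟨⟨u0, h00⟩, ⟨v0, h01⟩, ⟨w0, h02⟩⟩ := hcon (e 0)
    obtain ⟨⟨u1, h10⟩, ⟨v1, h11⟩, ⟨w1, h12⟩⟩ := hcon (e 1)
    obtain ⟨⟨u2, h20⟩, ⟨v2, h21⟩, ⟨w2, h22⟩⟩ := hcon (e 2)
    have hsq : det3 ![det3 (e 0) b c, det3 (e 1) b c, det3 (e 2) b c]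
        ![det3 a (e 0) c, det3 a (e 1) c, det3 a (e 2) c]
        ![det3 a b (e 0), det3 a b (e 1), det3 a b (e 2)] = det3 a b c ^ 2 := by
      simp [det3, e]
      ring
    rw [h00, h01, h02, h10, h11, h12, h20, h21, h22] at hsq
    have h1 : det3 a b c ^ 3 * det3 ![u0, u1, u2] ![v0, v1, v2] ![w0, w1, w2] = det3 a b c ^ 2 := by
      rw [← hsq]
      simp only [det3, Matrix.cons_val_zero, Matrix.cons_val_one, Matrix.cons_val]
      ring
    set d := det3 a b c with hddef
    have h2 : d ^ 2 * (d * det3 ![u0, u1, u2] ![v0, v1, v2] ![w0, w1, w2]) = d ^ 2 * 1 := by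
      linear_combination h1
    have h3 := mul_left_cancel₀ (by positivity : d ^ 2 ≠ 0) h2
    have h4 : IsUnit d := IsUnit.of_mul_eq_one _ h3
    rcases Int.isUnit_iff.mp h4 with h5 | h5 <;> omega
  obtain ⟨z, hz⟩ := hex
  set d := det3 a b c with hddef
  set P := det3 z b c
  set Q := det3 a z c
  set R := det3 a b z
  have hcr := cramer a b c z
  rw [← hddef] at hcr
  set p := P % d
  set q := Q % d
  set r := R % d
  have hp0 : 0 ≤ p := Int.emod_nonneg _ (by omega)
  have hq0 : 0 ≤ q := Int.emod_nonneg _ (by omega)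
  have hr0 : 0 ≤ r := Int.emod_nonneg _ (by omega)
  have hpd : p < d := Int.emod_lt_of_pos _ hd
  have hqd : q < d := Int.emod_lt_of_pos _ hd
  have hrd : r < d := Int.emod_lt_of_pos _ hd
  set z' : IVec := z - (P / d) • a - (Q / d) • b - (R / d) • c with hz'
  have hz'eq : d • z' = p • a + q • b + r • c := by
    have e1 : P = d * (P / d) + p := (Int.mul_ediv_add_emod P d).symm
    have e2 : Q = d * (Q / d) + q := (Int.mul_ediv_add_emod Q d).symm
    have e3 : R = d * (R / d) + r := (Int.mul_ediv_add_emod R d).symm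
    have hcr' : d • z = P • a + Q • b + R • c := hcr
    rw [hz', smul_sub, smul_sub, smul_sub, hcr']
    ext i
    simp only [Pi.add_apply, Pi.sub_apply, Pi.smul_apply, smul_eq_mul]
    linear_combination (a i) * e1 + (b i) * e2 + (c i) * e3
  -- the sum of the remainders is a multiple of d
  have hfz : (d : ℝ) * f z' = p + q + r := by
    have := congrArg f hz'eq
    rw [map_add, map_add, map_smul, map_smul, map_smul, map_smul, ha.2.1, hb.2.1, hc.2.1] at this
    simpa only [zsmul_eq_mul, mul_one] using this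
  rw [hg z'] at hfz
  have hfz' : d * dotp g z' = p + q + r := by exact_mod_cast hfz
  have hnz : ¬ (p = 0 ∧ q = 0 ∧ r = 0) := by
    rintro ⟨h1, h2, h3⟩
    exact hz ⟨Int.dvd_of_emod_eq_zero h1, Int.dvd_of_emod_eq_zero h2, Int.dvd_of_emod_eq_zero h3⟩
  have hm : dotp g z' = 1 ∨ dotp g z' = 2 := by
    have h1 : 0 < d * dotp g z' := by
      rw [hfz']; omega
    have h2 : d * dotp g z' < d * 3 := by
      rw [hfz']; omega
    have h3 := lt_of_mul_lt_mul_left h2 hd.le
    have h4 : 0 < dotp g z' := by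
      by_contra h
      push Not at h
      nlinarith
    omega
  rcases hm with hm | hm
  · rw [hm, mul_one] at hfz'
    exact no_weights hd hF ha hb hc hp0 hq0 hr0 (by rw [← hddef]; omega) (Or.inl hpd) (Or.inl hqd)
      (Or.inl hrd) hz'eq
  · rw [hm] at hfz'
    refine no_weights (y := a + b + c - z') (p := d - p) (q := d - q) (r := d - r) hd hF ha hb hc
      (by omega) (by omega) (by omega) (by rw [← hddef]; omega) (Or.inr ⟨by omega, by omega⟩)
      (Or.inr ⟨by omega, by omega⟩) (Or.inr ⟨by omega, by omega⟩) ?_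
    rw [← hddef, smul_sub, hz'eq, smul_add, smul_add]
    ext i
    simp only [Pi.add_apply, Pi.sub_apply, Pi.smul_apply, smul_eq_mul]
    ring

theorem IsDart.unique {a b c c' : IVec} (h : T.IsDart a b c) (h' : T.IsDart a b c') : c = c' := by
  have hd := h.det_eq_one
  have hd' := h'.det_eq_one
  obtain ⟨_, f, G, hF, ha, hb, hc⟩ := h
  obtain ⟨_, f', G', hF', ha', hb', hc'⟩ := h'
  -- c' = c + m a + n b
  have hcr := cramer a b c c'
  rw [hd, hd', one_smul, one_smul] at hcr
  set m := det3 c' b c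
  set n := det3 a c' c
  have e1 : f c' = m + n + 1 := by
    have := congrArg f hcr
    rw [map_add, map_add, map_smul, map_smul, ha.2.1, hb.2.1, hc.2.1] at this
    simpa only [zsmul_eq_mul, mul_one] using this
  have e2 : G c' = m * (T.L 0 a) ^ 2 + n * (T.L 0 b) ^ 2 + (T.L 0 c) ^ 2 := by
    have := congrArg G hcr
    rw [map_add, map_add, map_smul, map_smul, ha.2.2, hb.2.2, hc.2.2] at this
    simpa only [zsmul_eq_mul] using this
  have e3 : f' c' = m + n + f' c := by
    have := congrArg f' hcr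
    rw [map_add, map_add, map_smul, map_smul, ha'.2.1, hb'.2.1] at this
    simpa only [zsmul_eq_mul, mul_one] using this
  have e4 : G' c' = m * (T.L 0 a) ^ 2 + n * (T.L 0 b) ^ 2 + G' c := by
    have := congrArg G' hcr
    rw [map_add, map_add, map_smul, map_smul, ha'.2.2, hb'.2.2] at this
    simpa only [zsmul_eq_mul] using this
  have e5 : T.L 0 c' = m * T.L 0 a + n * T.L 0 b + T.L 0 c := by
    have := congrArg (T.L 0) hcr
    rw [map_add, map_add, map_smul, map_smul] at this
    simpa only [zsmul_eq_mul] using this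
  have f1 := (hF c' hc'.1).1
  have f2 := (hF' c hc.1).1
  rw [hc'.2.1] at e3
  have g1 : (m : ℝ) + n = 0 := by
    have : (0 : ℝ) ≤ m + n := by linarith
    have : (m : ℝ) + n ≤ 0 := by linarith
    linarith
  have f3 := (hF c' hc'.1).2 (by linarith)
  have f4 := (hF' c hc.1).2 (by linarith)
  rw [hc'.2.2] at e4
  have g2 : (T.L 0 c') ^ 2 = m * (T.L 0 a) ^ 2 + n * (T.L 0 b) ^ 2 + (T.L 0 c) ^ 2 := by
    have : (T.L 0 c') ^ 2 ≤ m * (T.L 0 a) ^ 2 + n * (T.L 0 b) ^ 2 + (T.L 0 c) ^ 2 := by linarith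
    linarith
  have hn : (n : ℝ) = -m := by linarith
  rw [e5, hn] at g2
  set A := T.L 0 a with hA
  set B := T.L 0 b with hB
  set C := T.L 0 c with hC
  have g3 : (m : ℝ) * ((A - B) * (2 * C + m * (A - B) - A - B)) = 0 := by linarith
  have hmn : n = -m := by exact_mod_cast hn
  rcases mul_eq_zero.mp g3 with h | h
  · have hm0 : m = 0 := by exact_mod_cast h
    have hn0 : n = 0 := by rw [hmn, hm0]; rfl
    rw [hcr, hm0, hn0]; simp
  · exfalso
    rcases mul_eq_zero.mp h with h | h
    · have hab : a = b := T.L_inj 0 (by rw [← hA, ← hB]; linarith)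
      rw [hab] at hd
      have : det3 b b c = 0 := by simp [det3]; ring
      omega
    · have h1 : T.L 0 ((2 : ℤ) • c + (m - 1) • a + (-(m + 1)) • b) = 0 := by
        rw [map_add, map_add, map_smul, map_smul, map_smul, ← hA, ← hB, ← hC]
        simp only [zsmul_eq_mul]
        push_cast
        linarith
      have h2 : (2 : ℤ) • c + (m - 1) • a + (-(m + 1)) • b = 0 := by
        by_contra hne
        exact T.L_ne hne 0 h1
      have h3 : det3 a b ((2 : ℤ) • c + (m - 1) • a + (-(m + 1)) • b) = 2 * det3 a b c := by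
        simp [det3]; ring
      rw [h2, hd] at h3
      simp [det3] at h3

end Setup

end KCore

namespace KCore

open ClosedPath

/-- change of basis map -/
def chg (a b c a' b' c' : IVec) : IVec →ₗ[ℤ] IVec where
  toFun x := det3 x b c • a' + det3 a x c • b' + det3 a b x • c'
  map_add' x y := by
    ext i
    simp only [det3, Pi.add_apply, Pi.smul_apply, smul_eq_mul]
    ring
  map_smul' m x := by
    ext i
    simp only [det3, Pi.add_apply, Pi.smul_apply, smul_eq_mul, RingHom.id_apply]
    ring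

theorem chg_apply (a b c a' b' c' x : IVec) :
    chg a b c a' b' c' x = det3 x b c • a' + det3 a x c • b' + det3 a b x • c' := rfl

theorem chg_a {a b c a' b' c' : IVec} (h : det3 a b c = 1) : chg a b c a' b' c' a = a' := by
  rw [chg_apply, h]
  have h1 : det3 a a c = 0 := by simp [det3]; ring
  have h2 : det3 a b a = 0 := by simp [det3]; ring
  rw [h1, h2]; simp

theorem chg_b {a b c a' b' c' : IVec} (h : det3 a b c = 1) : chg a b c a' b' c' b = b' := by
  rw [chg_apply, h]
  have h1 : det3 b b c = 0 := by simp [det3]; ring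
  have h2 : det3 a b b = 0 := by simp [det3]; ring
  rw [h1, h2]; simp

theorem chg_c {a b c a' b' c' : IVec} (h : det3 a b c = 1) : chg a b c a' b' c' c = c' := by
  rw [chg_apply, h]
  have h1 : det3 c b c = 0 := by simp [det3]; ring
  have h2 : det3 a c c = 0 := by simp [det3]; ring
  rw [h1, h2]; simp

theorem chg_chg {a b c a' b' c' : IVec} (h : det3 a b c = 1) (h' : det3 a' b' c' = 1) (x : IVec) :
    chg a' b' c' a b c (chg a b c a' b' c' x) = x := by
  rw [chg_apply a b c a' b' c' x, map_add, map_add, map_smul, map_smul, map_smul, chg_a h', chg_b h',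
    chg_c h', ← cramer, h, one_smul]

structure Sym (T : Setup) where
  B : IVec →ₗ[ℤ] IVec
  B' : IVec →ₗ[ℤ] IVec
  left : ∀ x, B' (B x) = x
  right : ∀ x, B (B' x) = x
  mu : Fin 3 → ℝ
  mu_pos : ∀ i, 0 < mu i
  eig : ∀ i x, T.L i (B x) = mu i * T.L i x

namespace Sym

variable {T : Setup} (s : Sym T)

theorem det_eq (a b c : IVec) :
    (det3 (s.B a) (s.B b) (s.B c) : ℝ) = (s.mu 0 * s.mu 1 * s.mu 2) * det3 a b c := by
  have h1 := rdet_L T.L (s.B a) (s.B b) (s.B c)
  have h2 := rdet_L T.L a b c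
  have h3 : rdet (fun i => T.L i (s.B a)) (fun i => T.L i (s.B b)) (fun i => T.L i (s.B c))
      = (s.mu 0 * s.mu 1 * s.mu 2) * rdet (fun i => T.L i a) (fun i => T.L i b) (fun i => T.L i c) := by
    simp only [rdet, s.eig]
    ring
  rw [h3, h2] at h1
  have h4 := T.ldet
  have h5 : Ldet T.L * ((s.mu 0 * s.mu 1 * s.mu 2) * (det3 a b c : ℝ))
      = Ldet T.L * (det3 (s.B a) (s.B b) (s.B c) : ℝ) := by linarith
  exact (mul_left_cancel₀ h4 h5).symm

theorem mem_S {y : IVec} (hy : y ∈ T.S) : s.B y ∈ T.S := by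
  intro i
  rw [s.eig]
  exact mul_pos (s.mu_pos i) (hy i)

theorem mem_S' {y : IVec} (hy : y ∈ T.S) : s.B' y ∈ T.S := by
  intro i
  have h1 := hy i
  rw [← s.right y, s.eig] at h1
  exact pos_of_mul_pos_of_pos_left' h1 (s.mu_pos i).le
where
  pos_of_mul_pos_of_pos_left' {x y : ℝ} (h : 0 < x * y) (hx : 0 ≤ x) : 0 < y := by
    by_contra hy
    push Not at hy
    nlinarith

theorem dart {a b c : IVec} (h : T.IsDart a b c) : T.IsDart (s.B a) (s.B b) (s.B c) := by
  obtain ⟨hd, f, G, hF, ha, hb, hc⟩ := h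
  have hL0 : ∀ y, T.L 0 y = s.mu 0 * T.L 0 (s.B' y) := by
    intro y
    rw [← s.eig, s.right]
  have htight : ∀ y, T.Tight f G y → T.Tight (f.comp s.B') (((s.mu 0) ^ 2) • (G.comp s.B')) (s.B y) := by
    intro y hy
    refine ⟨s.mem_S hy.1, ?_, ?_⟩
    · rw [LinearMap.comp_apply, s.left]; exact hy.2.1
    · rw [LinearMap.smul_apply, LinearMap.comp_apply, s.left, hy.2.2, s.eig, smul_eq_mul]; ring
  refine ⟨?_, f.comp s.B', ((s.mu 0) ^ 2) • (G.comp s.B'), ?_, htight a ha, htight b hb, htight c hc⟩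
  · have h1 := s.det_eq a b c
    have h2 : (0 : ℝ) < (det3 (s.B a) (s.B b) (s.B c) : ℝ) := by
      rw [h1]
      have : (0 : ℝ) < (det3 a b c : ℝ) := by exact_mod_cast hd
      have := s.mu_pos 0
      have := s.mu_pos 1
      have := s.mu_pos 2
      positivity
    exact_mod_cast h2
  · intro y hy
    have hy' := s.mem_S' hy
    obtain ⟨h1, h2⟩ := hF _ hy'
    refine ⟨h1, ?_⟩
    intro h3
    have h4 := h2 h3
    rw [LinearMap.smul_apply, LinearMap.comp_apply, smul_eq_mul, hL0 y]
    have := sq_nonneg (s.mu 0)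
    nlinarith

end Sym

@[ext]
structure Dart (T : Setup) where
  a : IVec
  b : IVec
  c : IVec
  h : T.IsDart a b c

namespace Dart

variable {T : Setup}

theorem det (d : Dart T) : det3 d.a d.b d.c = 1 := d.h.det_eq_one

def rho (d : Dart T) : Dart T := ⟨d.b, d.c, d.a, d.h.rot⟩

noncomputable def tau (d : Dart T) : Dart T := ⟨d.b, d.a, d.h.across.choose, d.h.across.choose_spec⟩

noncomputable def sigma (d : Dart T) : Dart T := tau (rho (rho d))

theorem rho_rho_rho (d : Dart T) : rho (rho (rho d)) = d := rfl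

theorem tau_tau (d : Dart T) : tau (tau d) = d := by
  have h1 : (tau (tau d)).c = d.c := Setup.IsDart.unique (tau (tau d)).h d.h
  ext1
  · rfl
  · rfl
  · exact h1

theorem sigma_a (d : Dart T) : (sigma d).a = d.a := rfl

theorem sigma_b (d : Dart T) : (sigma d).b = d.c := rfl

/-- coefficients across an edge -/
noncomputable def P (d : Dart T) : ℤ := det3 (tau d).c d.b d.c
noncomputable def Q (d : Dart T) : ℤ := det3 d.a (tau d).c d.c

theorem tau_c (d : Dart T) : (tau d).c = P d • d.a + Q d • d.b - d.c := by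
  have h1 := cramer d.a d.b d.c (tau d).c
  have h2 : det3 d.a d.b (tau d).c = -1 := by
    have h3 := (tau d).det
    have h4 : det3 (tau d).a (tau d).b (tau d).c = - det3 d.a d.b (tau d).c := by
      change det3 d.b d.a (tau d).c = - det3 d.a d.b (tau d).c
      simp [det3]; ring
    omega
  rw [d.det, one_smul, h2] at h1
  rw [h1]
  simp only [P, Q]
  rw [neg_one_smul, sub_eq_add_neg]

theorem P_tau (d : Dart T) : P (tau d) = Q d := by
  simp only [P, Q]
  rw [tau_tau]
  change det3 d.c d.a (tau d).c = det3 d.a (tau d).c d.c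
  simp [det3]; ring

theorem Q_tau (d : Dart T) : Q (tau d) = P d := by
  rw [← P_tau, tau_tau]

theorem two_le (d : Dart T) : 2 ≤ P d + Q d := by
  obtain ⟨hd, f, G, hF, ha, hb, hc⟩ := d.h
  have h1 : (tau d).c ∈ T.S := by
    obtain ⟨_, f', G', _, _, _, hc'⟩ := (tau d).h
    exact hc'.1
  have h2 := (hF _ h1).1
  rw [tau_c, map_sub, map_add, map_smul, map_smul, ha.2.1, hb.2.1, hc.2.1] at h2
  simp only [zsmul_eq_mul, mul_one] at h2
  have h3 : (2 : ℝ) ≤ ((P d + Q d : ℤ) : ℝ) := by push_cast; linarith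
  exact_mod_cast h3

/-- antisymmetric form -/
noncomputable def om (T : Setup) (x y : IVec) : ℝ := T.L 0 x * T.L 1 y - T.L 1 x * T.L 0 y

theorem om_ne {x y z : IVec} (h : om T x y = 0) : det3 x y z = 0 := by
  have hdot : ∀ z, dotp (cross x y) z = det3 x y z := by
    intro z
    simp [dotp, cross, det3]; ring
  by_cases hc : cross x y = 0
  · rw [← hdot, hc]; simp [dotp]
  · exfalso
    have := T.dual_ge (cross x y) hc
      ![(T.L 1 x * T.L 2 y - T.L 2 x * T.L 1 y) / Ldet T.L,
        (T.L 2 x * T.L 0 y - T.L 0 x * T.L 2 y) / Ldet T.L, om T x y / Ldet T.L] (by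
        intro z
        rw [hdot]
        have h1 := rdet_L T.L x y z
        have h2 := T.ldet
        simp only [Matrix.cons_val_zero, Matrix.cons_val_one, Matrix.cons_val]
        have h3 : (det3 x y z : ℝ) = rdet (fun i => T.L i x) (fun i => T.L i y) (fun i => T.L i z) / Ldet T.L := by
          rw [h1]; field_simp
        rw [h3]
        simp only [rdet, om]
        ring)
    simp only [Matrix.cons_val_zero, Matrix.cons_val_one, Matrix.cons_val] at this
    rw [h] at this
    simp at this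
    linarith [T.ε_pos]

noncomputable def st (d : Dart T) : ℝ × ℝ := (om T d.a d.b, om T d.a d.c)

theorem om_add_smul (v x y : IVec) (m n : ℤ) :
    om T v (m • x + n • y) = m * om T v x + n * om T v y := by
  simp only [om, map_add, map_smul]
  simp only [zsmul_eq_mul]
  ring

theorem st_irr (d : Dart T) : Irr (st d) := by
  intro m n h
  simp only [st] at h
  rw [← om_add_smul] at h
  have h1 := om_ne (z := d.c) h
  have h2 := om_ne (z := d.b) h
  have hd := d.det
  have h3 : det3 d.a (m • d.b + n • d.c) d.c = m * det3 d.a d.b d.c := by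
    simp [det3]; ring
  have h4 : det3 d.a (m • d.b + n • d.c) d.b = - n * det3 d.a d.b d.c := by
    simp [det3]; ring
  rw [h3, hd] at h1
  rw [h4, hd] at h2
  constructor <;> linarith

/-- coefficient used at the first vertex -/
noncomputable def p (d : Dart T) : ℤ := P (rho (rho d))

theorem sigma_c (d : Dart T) : (sigma d).c = p d • d.c + Q (rho (rho d)) • d.a - d.b := by
  have := tau_c (rho (rho d))
  exact this

theorem st_sigma (d : Dart T) : st (sigma d) = stp (p d) (st d) := by
  have h : om T d.a (sigma d).c = p d * om T d.a d.c - om T d.a d.b := by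
    rw [sigma_c]
    simp only [om, map_add, map_sub, map_smul]
    simp only [zsmul_eq_mul]
    ring
  simp only [st, stp, sigma_a, sigma_b]
  rw [h]

noncomputable def path : ℕ → Dart T → List ℤ
  | 0, _ => []
  | n + 1, d => p d :: path n (sigma d)

noncomputable def sgn (d : Dart T) : ℤ := sg (st d).1 (st d).2

theorem run_path (n : ℕ) : ∀ d : Dart T, run (path n d) (st d) = st (sigma^[n] d) := by
  induction n with
  | zero => intro d; rfl
  | succ n ih =>
    intro d
    simp only [path, run]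
    rw [← st_sigma, ih, Function.iterate_succ_apply]

theorem cost_path (n : ℕ) : ∀ d : Dart T, cost (path n d) (st d) =
    ∑ k ∈ Finset.range n, (p (sigma^[k] d) - 3 * sgn (sigma^[k + 1] d)) := by
  induction n with
  | zero => intro d; rfl
  | succ n ih =>
    intro d
    simp only [path, cost]
    rw [Finset.sum_range_succ', ← st_sigma, ih]
    have h1 : (p d : ℝ) * (st d).2 - (st d).1 = (st (sigma d)).2 := by rw [st_sigma]; rfl
    have h2 : (st d).2 = (st (sigma d)).1 := by rw [st_sigma]; rfl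
    rw [h1, h2]
    simp only [sgn, Function.iterate_succ_apply, Function.iterate_zero, id_eq]
    ring

theorem sum_closed {n : ℕ} {d : Dart T} (h : sigma^[n] d = d) :
    ∑ k ∈ Finset.range n, (p (sigma^[k] d) - 3 * sgn (sigma^[k + 1] d)) = 0 := by
  rw [← cost_path]
  apply closed_cost _ _ _ rfl (st_irr d)
  left
  rw [run_path, h]

/-- exactly one of the three corners of a triangle has a sign change -/
theorem sgn_sum (d : Dart T) : sgn d + sgn (rho d) + sgn (rho (rho d)) = 1 := by
  have hx := (st_irr d).fst_ne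
  have hy := (st_irr d).snd_ne
  have hz := (st_irr (rho d)).fst_ne
  have ha := d.h.2.choose_spec.choose_spec.2.1.1 0
  have hb := d.h.2.choose_spec.choose_spec.2.2.1.1 0
  have hc := d.h.2.choose_spec.choose_spec.2.2.2.1 0
  have e1 : (st d).1 = om T d.a d.b := rfl
  have e2 : (st d).2 = om T d.a d.c := rfl
  have e3 : (st (rho d)).1 = om T d.b d.c := rfl
  have e4 : (st (rho d)).2 = - om T d.a d.b := by
    change om T d.b d.a = _
    simp only [om]; ring
  have e5 : (st (rho (rho d))).1 = - om T d.a d.c := by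
    change om T d.c d.a = _
    simp only [om]; ring
  have e6 : (st (rho (rho d))).2 = - om T d.b d.c := by
    change om T d.c d.b = _
    simp only [om]; ring
  have rel : om T d.a d.b * T.L 0 d.c + om T d.b d.c * T.L 0 d.a = om T d.a d.c * T.L 0 d.b := by
    simp only [om]; ring
  simp only [sgn]
  rw [e1] at hx
  rw [e2] at hy
  rw [e3] at hz
  rw [e1, e2, e3, e4, e5, e6]
  set x := om T d.a d.b
  set y := om T d.a d.c
  set z := om T d.b d.c
  rcases lt_or_gt_of_ne hx with hx | hx <;> rcases lt_or_gt_of_ne hy with hy | hy <;>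
    rcases lt_or_gt_of_ne hz with hz | hz
  · rw [sg_pos (by nlinarith), sg_neg (by nlinarith), sg_pos (by nlinarith)]; rfl
  · rw [sg_pos (by nlinarith), sg_pos (by nlinarith), sg_neg (by nlinarith)]; rfl
  · exfalso; nlinarith [mul_pos_of_neg_of_neg hx hx, mul_pos hy hb]
  · rw [sg_neg (by nlinarith), sg_pos (by nlinarith), sg_pos (by nlinarith)]; rfl
  · rw [sg_neg (by nlinarith), sg_pos (by nlinarith), sg_pos (by nlinarith)]; rfl
  · exfalso; nlinarith [mul_pos hx hc, mul_pos hz ha]
  · rw [sg_pos (by nlinarith), sg_pos (by nlinarith), sg_neg (by nlinarith)]; rfl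
  · rw [sg_pos (by nlinarith), sg_neg (by nlinarith), sg_pos (by nlinarith)]; rfl

end Dart

end KCore

namespace KCore

open ClosedPath

namespace Dart

variable {T : Setup}

/-- coordinates in the basis of a dart -/
def cf (d : Dart T) (x : IVec) : Fin 3 → ℤ := ![det3 x d.b d.c, det3 d.a x d.c, det3 d.a d.b x]

/-- matrix of `A` in the basis of a dart -/
def conj (d : Dart T) : Fin 3 → Fin 3 → ℤ := ![cf d (T.A d.a), cf d (T.A d.b), cf d (T.A d.c)]

def Rel (d d' : Dart T) : Prop := ∃ s : Sym T, s.B d.a = d'.a ∧ s.B d.b = d'.b ∧ s.B d.c = d'.c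

theorem rel_of_conj_eq {d d' : Dart T} (h : conj d = conj d') : Rel d d' := by
  have hd := d.det
  have hd' := d'.det
  set B := chg d.a d.b d.c d'.a d'.b d'.c with hB
  set B' := chg d'.a d'.b d'.c d.a d.b d.c with hB'
  have hBa : B d.a = d'.a := chg_a hd
  have hBb : B d.b = d'.b := chg_b hd
  have hBc : B d.c = d'.c := chg_c hd
  have h0 : cf d (T.A d.a) = cf d' (T.A d'.a) := congrFun h 0
  have h1 : cf d (T.A d.b) = cf d' (T.A d'.b) := congrFun h 1
  have h2 : cf d (T.A d.c) = cf d' (T.A d'.c) := congrFun h 2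
  have key : ∀ x x' : IVec, cf d x = cf d' x' → B x = x' := by
    intro x x' hx
    have e0 : det3 x d.b d.c = det3 x' d'.b d'.c := congrFun hx 0
    have e1 : det3 d.a x d.c = det3 d'.a x' d'.c := congrFun hx 1
    have e2 : det3 d.a d.b x = det3 d'.a d'.b x' := congrFun hx 2
    rw [hB, chg_apply, e0, e1, e2, ← cramer, hd', one_smul]
  have k0 := key _ _ h0
  have k1 := key _ _ h1
  have k2 := key _ _ h2
  have hcomm : ∀ x, B (T.A x) = T.A (B x) := by
    intro x
    have hx := cramer d.a d.b d.c x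
    rw [hd, one_smul] at hx
    rw [hx]
    simp only [map_add, map_smul]
    rw [k0, k1, k2, hBa, hBb, hBc]
  have hmu : ∀ i, ∃ m : ℝ, ∀ x, T.L i (B x) = m * T.L i x := by
    intro i
    set f : Form := (T.L i).comp B with hf
    have hfx : ∀ x, f x = T.L i (B x) := fun x => rfl
    have hfA : ∀ x, f (T.A x) = T.lam i * f x := by
      intro x
      rw [hfx, hcomm, T.eig, hfx]
    have hzero : (fun j => T.coef f j * (T.lam j - T.lam i)) = T.coef 0 := by
      apply T.coef_unique
      intro x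
      have h3 := hfA x
      rw [T.coef_spec f (T.A x), T.coef_spec f x, T.eig, T.eig, T.eig] at h3
      simp only [LinearMap.zero_apply]
      linarith
    have hz0 : (fun _ => (0 : ℝ)) = T.coef 0 := T.coef_unique 0 _ (by intro y; simp)
    have hz : ∀ j, j ≠ i → T.coef f j = 0 := by
      intro j hj
      have h4 := congrFun hzero j
      rw [← hz0] at h4
      simp only at h4
      rcases mul_eq_zero.mp h4 with h | h
      · exact h
      · exact absurd (T.lam_inj (by linarith)) hj
    refine ⟨T.coef f i, ?_⟩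
    intro x
    rw [← hfx, T.coef_spec f x]
    fin_cases i
    · have a1 := hz 1 (by decide)
      have a2 := hz 2 (by decide)
      simp only [Fin.zero_eta] at *
      rw [a1, a2]; ring
    · have a1 := hz 0 (by decide)
      have a2 := hz 2 (by decide)
      simp only [Fin.mk_one] at *
      rw [a1, a2]; ring
    · have a1 := hz 0 (by decide)
      have a2 := hz 1 (by decide)
      simp only [Fin.reduceFinMk] at *
      rw [a1, a2]; ring
  choose mu hmu using hmu
  refine ⟨⟨B, B', fun x => chg_chg hd hd' x, fun x => chg_chg hd' hd x, mu, ?_, hmu⟩, hBa, hBb, hBc⟩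
  intro i
  have h3 := hmu i d.a
  rw [hBa] at h3
  have ha := d.h.2.choose_spec.choose_spec.2.1.1 i
  have ha' := d'.h.2.choose_spec.choose_spec.2.1.1 i
  rw [h3] at ha'
  by_contra hcon
  push Not at hcon
  nlinarith

theorem conj_eq_of_rel {d d' : Dart T} (h : Rel d d') : conj d = conj d' := by
  obtain ⟨s, ha, hb, hc⟩ := h
  have hprod : s.mu 0 * s.mu 1 * s.mu 2 = 1 := by
    have h1 := s.det_eq d.a d.b d.c
    rw [ha, hb, hc, d'.det, d.det] at h1
    push_cast at h1
    linarith
  have hdet : ∀ x y z, det3 (s.B x) (s.B y) (s.B z) = det3 x y z := by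
    intro x y z
    have h1 := s.det_eq x y z
    rw [hprod, one_mul] at h1
    exact_mod_cast h1
  have hcomm : ∀ x, T.A (s.B x) = s.B (T.A x) := by
    intro x
    apply T.L_inj 0
    rw [T.eig, s.eig, s.eig, T.eig]
    ring
  simp only [conj, cf]
  rw [← ha, ← hb, ← hc, hcomm, hcomm, hcomm]
  simp only [hdet]

theorem conj_eq_iff {d d' : Dart T} : conj d = conj d' ↔ Rel d d' :=
  ⟨rel_of_conj_eq, conj_eq_of_rel⟩

theorem Rel.rho {d d' : Dart T} (h : Rel d d') : Rel (rho d) (rho d') := by
  obtain ⟨s, ha, hb, hc⟩ := h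
  exact ⟨s, hb, hc, ha⟩

theorem Rel.tau {d d' : Dart T} (h : Rel d d') : Rel (tau d) (tau d') := by
  obtain ⟨s, ha, hb, hc⟩ := h
  refine ⟨s, hb, ha, ?_⟩
  have h1 := s.dart (Dart.tau d).h
  have h2 := (Dart.tau d').h
  have e1 : s.B (Dart.tau d).a = d'.b := hb
  have e2 : s.B (Dart.tau d).b = d'.a := ha
  rw [e1, e2] at h1
  exact Setup.IsDart.unique h1 h2

theorem det_pres {d d' : Dart T} (s : Sym T) (ha : s.B d.a = d'.a) (hb : s.B d.b = d'.b)
    (hc : s.B d.c = d'.c) (x y z : IVec) : det3 (s.B x) (s.B y) (s.B z) = det3 x y z := by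
  have hprod : s.mu 0 * s.mu 1 * s.mu 2 = 1 := by
    have h1 := s.det_eq d.a d.b d.c
    rw [ha, hb, hc, d'.det, d.det] at h1
    push_cast at h1
    linarith
  have h1 := s.det_eq x y z
  rw [hprod, one_mul] at h1
  exact_mod_cast h1

theorem Rel.P_eq {d d' : Dart T} (h : Rel d d') : P d = P d' := by
  obtain ⟨s, ha, hb, hc⟩ := h
  have h1 := s.dart (Dart.tau d).h
  have h2 := (Dart.tau d').h
  have e1 : s.B (Dart.tau d).a = d'.b := hb
  have e2 : s.B (Dart.tau d).b = d'.a := ha
  rw [e1, e2] at h1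
  have h3 := Setup.IsDart.unique h1 h2
  simp only [P]
  rw [← h3, ← hb, ← hc, det_pres s ha hb hc]

theorem Rel.sgn_eq {d d' : Dart T} (h : Rel d d') : sgn d = sgn d' := by
  obtain ⟨s, ha, hb, hc⟩ := h
  simp only [sgn, st]
  rw [← ha, ← hb, ← hc]
  have hom : ∀ x y, om T (s.B x) (s.B y) = (s.mu 0 * s.mu 1) * om T x y := by
    intro x y
    simp only [om, s.eig]
    ring
  rw [hom, hom]
  simp only [sg]
  have hpos : 0 < (s.mu 0 * s.mu 1) * (s.mu 0 * s.mu 1) := by
    have := s.mu_pos 0
    have := s.mu_pos 1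
    positivity
  have : s.mu 0 * s.mu 1 * om T d.a d.b * (s.mu 0 * s.mu 1 * om T d.a d.c)
      = (s.mu 0 * s.mu 1) * (s.mu 0 * s.mu 1) * (om T d.a d.b * om T d.a d.c) := by ring
  rw [this]
  by_cases hq : 0 < om T d.a d.b * om T d.a d.c
  · rw [if_pos hq, if_pos (mul_pos hpos hq)]
  · rw [if_neg hq, if_neg (by
      push Not at hq ⊢
      exact mul_nonpos_of_nonneg_of_nonpos hpos.le hq)]

/-- bound for a determinant -/
theorem rdet_bound {x y z : Fin 3 → ℝ} {M : ℝ} (hx : ∀ i, |x i| ≤ M) (hy : ∀ i, |y i| ≤ M)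
    (hz : ∀ i, |z i| ≤ M) : |rdet x y z| ≤ 6 * M ^ 3 := by
  have hM : 0 ≤ M := le_trans (abs_nonneg _) (hx 0)
  have aux : ∀ i j k, |x i * y j * z k| ≤ M ^ 3 := by
    intro i j k
    rw [abs_mul, abs_mul]
    have h1 : |x i| * |y j| ≤ M * M := mul_le_mul (hx i) (hy j) (abs_nonneg _) hM
    have h2 : |x i| * |y j| * |z k| ≤ (M * M) * M :=
      mul_le_mul h1 (hz k) (abs_nonneg _) (by positivity)
    calc |x i| * |y j| * |z k| ≤ (M * M) * M := h2
      _ = M ^ 3 := by ring
  have e : rdet x y z = x 0 * y 1 * z 2 - x 0 * y 2 * z 1 - x 1 * y 0 * z 2 + x 1 * y 2 * z 0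
      + x 2 * y 0 * z 1 - x 2 * y 1 * z 0 := by
    simp only [rdet]; ring
  rw [e]
  have a1 := abs_le.mp (aux 0 1 2)
  have a2 := abs_le.mp (aux 0 2 1)
  have a3 := abs_le.mp (aux 1 0 2)
  have a4 := abs_le.mp (aux 1 2 0)
  have a5 := abs_le.mp (aux 2 0 1)
  have a6 := abs_le.mp (aux 2 1 0)
  rw [abs_le]
  constructor <;> linarith [a1.1, a1.2, a2.1, a2.2, a3.1, a3.2, a4.1, a4.2, a5.1, a5.2, a6.1, a6.2]

theorem conj_bdd : ∃ N : ℤ, ∀ (d : Dart T) (i j : Fin 3), |conj d i j| ≤ N := by
  set M : ℝ := 1 + |T.lam 0| + |T.lam 1| + |T.lam 2| with hM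
  have l0 := abs_nonneg (T.lam 0)
  have l1 := abs_nonneg (T.lam 1)
  have l2 := abs_nonneg (T.lam 2)
  have hM1 : 1 ≤ M := by linarith
  have hlam : ∀ i, |T.lam i| ≤ M := by
    intro i; fin_cases i
    · simp only [Fin.zero_eta]; linarith
    · simp only [Fin.mk_one]; linarith
    · simp only [Fin.reduceFinMk]; linarith
  have hLd : 0 < |Ldet T.L| := abs_pos.mpr T.ldet
  refine ⟨⌈6 * M ^ 3 / (T.ε * |Ldet T.L|)⌉, ?_⟩
  intro d
  obtain ⟨hd, f, G, hF, ha, hb, hc⟩ := d.h
  obtain ⟨g, hg⟩ := Setup.integral hd (fun y hy => (hF y hy).1) ha.1 hb.1 hc.1 ha.2.1 hb.2.1 hc.2.1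
  have hpos := T.pos (fun y hy => (hF y hy).1)
  set c := T.coef f with hcdef
  have hspec : ∀ y, f y = c 0 * T.L 0 y + c 1 * T.L 1 y + c 2 * T.L 2 y := T.coef_spec f
  have hg0 : g ≠ 0 := by
    rintro rfl
    have := hg d.a
    rw [ha.2.1] at this
    simp [dotp] at this
  have hdual := T.dual_ge g hg0 c (by intro y; rw [← hg]; exact hspec y)
  have hcp : 0 < c 0 * c 1 * c 2 := mul_pos (mul_pos (hpos 0) (hpos 1)) (hpos 2)
  rw [abs_of_pos hcp] at hdual
  -- vertices have scaled coordinates at most one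
  have hv : ∀ y, y ∈ T.S → f y = 1 → ∀ i, |c i * T.L i y| ≤ 1 := by
    intro y hy hfy i
    have h0 := mul_pos (hpos 0) (hy 0)
    have h1 := mul_pos (hpos 1) (hy 1)
    have h2 := mul_pos (hpos 2) (hy 2)
    have h3 := hspec y
    rw [hfy] at h3
    rw [abs_of_pos (mul_pos (hpos i) (hy i))]
    fin_cases i
    · simp only [Fin.zero_eta]; linarith
    · simp only [Fin.mk_one]; linarith
    · simp only [Fin.reduceFinMk]; linarith
  have hvM : ∀ y, y ∈ T.S → f y = 1 → ∀ i, |c i * T.L i y| ≤ M := fun y hy hfy i =>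
    le_trans (hv y hy hfy i) hM1
  have hvA : ∀ y, y ∈ T.S → f y = 1 → ∀ i, |c i * T.L i (T.A y)| ≤ M := by
    intro y hy hfy i
    rw [T.eig]
    have e1 : c i * (T.lam i * T.L i y) = T.lam i * (c i * T.L i y) := by ring
    rw [e1, abs_mul]
    have := hv y hy hfy i
    have := hlam i
    nlinarith [abs_nonneg (T.lam i), abs_nonneg (c i * T.L i y)]
  have key : ∀ x y z : IVec, (∀ i, |c i * T.L i x| ≤ M) → (∀ i, |c i * T.L i y| ≤ M) →
      (∀ i, |c i * T.L i z| ≤ M) → |det3 x y z| ≤ ⌈6 * M ^ 3 / (T.ε * |Ldet T.L|)⌉ := by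
    intro x y z hx hy hz
    have h1 := rdet_bound (x := fun i => c i * T.L i x) (y := fun i => c i * T.L i y)
      (z := fun i => c i * T.L i z) hx hy hz
    have h2 : rdet (fun i => c i * T.L i x) (fun i => c i * T.L i y) (fun i => c i * T.L i z)
        = (c 0 * c 1 * c 2) * (Ldet T.L * det3 x y z) := by
      rw [← rdet_L]
      simp only [rdet]
      ring
    rw [h2, abs_mul, abs_of_pos hcp, abs_mul] at h1
    have h3 : T.ε * (|Ldet T.L| * |(det3 x y z : ℝ)|) ≤ 6 * M ^ 3 := by
      refine le_trans ?_ h1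
      apply mul_le_mul_of_nonneg_right hdual (by positivity)
    have h4 : |(det3 x y z : ℝ)| ≤ 6 * M ^ 3 / (T.ε * |Ldet T.L|) := by
      rw [le_div_iff₀ (mul_pos T.ε_pos hLd)]
      linarith
    have h5 : ((|det3 x y z| : ℤ) : ℝ) ≤ ((⌈6 * M ^ 3 / (T.ε * |Ldet T.L|)⌉ : ℤ) : ℝ) := by
      push_cast
      exact le_trans h4 (Int.le_ceil _)
    exact_mod_cast h5
  have va := hvM d.a ha.1 ha.2.1
  have vb := hvM d.b hb.1 hb.2.1
  have vc := hvM d.c hc.1 hc.2.1
  have wa := hvA d.a ha.1 ha.2.1
  have wb := hvA d.b hb.1 hb.2.1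
  have wc := hvA d.c hc.1 hc.2.1
  intro i j
  fin_cases i <;> fin_cases j
  · exact key _ _ _ wa vb vc
  · exact key _ _ _ va wa vc
  · exact key _ _ _ va vb wa
  · exact key _ _ _ wb vb vc
  · exact key _ _ _ va wb vc
  · exact key _ _ _ va vb wb
  · exact key _ _ _ wc vb vc
  · exact key _ _ _ va wc vc
  · exact key _ _ _ va vb wc

theorem finite_range : (Set.range (conj : Dart T → Fin 3 → Fin 3 → ℤ)).Finite := by
  obtain ⟨N, hN⟩ := conj_bdd (T := T)
  apply Set.Finite.subset (Set.finite_Icc (fun _ _ => -N) (fun _ _ => N))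
  rintro _ ⟨d, rfl⟩
  rw [Set.mem_Icc]
  constructor
  · intro i j
    exact (abs_le.mp (hN d i j)).1
  · intro i j
    exact (abs_le.mp (hN d i j)).2

/-- the finite quotient -/
def X (T : Setup) : Type := Quotient (Setoid.ker (conj : Dart T → Fin 3 → Fin 3 → ℤ))

instance : Finite (X T) := by
  have : Finite (Set.range (conj : Dart T → Fin 3 → Fin 3 → ℤ)) := finite_range
  exact Finite.of_equiv _ (Setoid.quotientKerEquivRange conj).symm

def cls (d : Dart T) : X T := Quotient.mk (Setoid.ker conj) d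

theorem cls_eq {d d' : Dart T} : cls d = cls d' ↔ Rel d d' := by
  rw [← conj_eq_iff]
  exact Quotient.eq (r := Setoid.ker conj)

def rhoX : X T → X T := Quotient.lift (fun d => cls (rho d)) (by
  intro d d' h
  exact cls_eq.mpr (Rel.rho (conj_eq_iff.mp h)))

noncomputable def tauX : X T → X T := Quotient.lift (fun d => cls (tau d)) (by
  intro d d' h
  exact cls_eq.mpr (Rel.tau (conj_eq_iff.mp h)))

noncomputable def PX : X T → ℤ := Quotient.lift (fun d => P d) (by
  intro d d' h
  exact Rel.P_eq (conj_eq_iff.mp h))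

noncomputable def sX : X T → ℤ := Quotient.lift (fun d => sgn d) (by
  intro d d' h
  exact Rel.sgn_eq (conj_eq_iff.mp h))

theorem rhoX_mk (d : Dart T) : rhoX (cls d) = cls (rho d) := rfl
theorem tauX_mk (d : Dart T) : tauX (cls d) = cls (tau d) := rfl
theorem PX_mk (d : Dart T) : PX (cls d) = P d := rfl
theorem sX_mk (d : Dart T) : sX (cls d) = sgn d := rfl

theorem exists_mk (x : X T) : ∃ d, cls d = x := Quotient.exists_rep x

def eRho (T : Setup) : Equiv.Perm (X T) where
  toFun := rhoX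
  invFun x := rhoX (rhoX x)
  left_inv x := by obtain ⟨d, rfl⟩ := exists_mk x; rfl
  right_inv x := by obtain ⟨d, rfl⟩ := exists_mk x; rfl

noncomputable def eTau (T : Setup) : Equiv.Perm (X T) where
  toFun := tauX
  invFun := tauX
  left_inv x := by
    obtain ⟨d, rfl⟩ := exists_mk x
    rw [tauX_mk, tauX_mk, tau_tau]
  right_inv x := by
    obtain ⟨d, rfl⟩ := exists_mk x
    rw [tauX_mk, tauX_mk, tau_tau]

noncomputable def eSigma (T : Setup) : Equiv.Perm (X T) := eTau T * eRho T * eRho T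

theorem eSigma_mk (d : Dart T) : eSigma T (cls d) = cls (sigma d) := rfl

theorem eSigma_pow_mk (k : ℕ) (d : Dart T) : (eSigma T ^ k) (cls d) = cls (sigma^[k] d) := by
  induction k generalizing d with
  | zero => rfl
  | succ k ih =>
    rw [pow_succ, Equiv.Perm.mul_apply, eSigma_mk, ih, Function.iterate_succ_apply]

theorem iter_a (k : ℕ) (d : Dart T) : (sigma^[k] d).a = d.a := by
  induction k generalizing d with
  | zero => rfl
  | succ k ih => rw [Function.iterate_succ_apply, ih, sigma_a]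

theorem eq_of_rel_of_a {d d' : Dart T} (h : Rel d d') (ha : d.a = d'.a) : d = d' := by
  obtain ⟨s, h1, h2, h3⟩ := h
  have hmu : ∀ i, s.mu i = 1 := by
    intro i
    have h4 := s.eig i d.a
    rw [h1, ← ha] at h4
    have ha := d.h.2.choose_spec.choose_spec.2.1.1 i
    have h5 : (s.mu i - 1) * T.L i d.a = 0 := by linarith
    rcases mul_eq_zero.mp h5 with h | h
    · linarith
    · linarith
  have hB : ∀ x, s.B x = x := by
    intro x
    apply T.L_inj 0
    rw [s.eig, hmu, one_mul]
  rw [hB] at h2 h3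
  ext1
  · exact ha
  · exact h2
  · exact h3

/-- a common period -/
theorem exists_period (T : Setup) : ∃ N : ℕ, 0 < N ∧ eSigma T ^ N = 1 ∧ ∀ d : Dart T, sigma^[N] d = d := by
  refine ⟨orderOf (eSigma T), orderOf_pos _, pow_orderOf_eq_one _, ?_⟩
  intro d
  have h1 := eSigma_pow_mk (orderOf (eSigma T)) d
  rw [pow_orderOf_eq_one] at h1
  have h2 : cls d = cls (sigma^[orderOf (eSigma T)] d) := h1
  exact (eq_of_rel_of_a (cls_eq.mp h2) (iter_a _ _).symm).symm

open Classical in
theorem all_two (d : Dart T) : P d + Q d = 2 := by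
  have : Fintype (X T) := Fintype.ofFinite _
  obtain ⟨N, hN, hpow, hper⟩ := exists_period T
  -- sum over the quotient
  have h1 : ∀ x : X T, ∑ k ∈ Finset.range N,
      (PX (rhoX (rhoX ((eSigma T ^ k) x))) - 3 * sX ((eSigma T ^ (k + 1)) x)) = 0 := by
    intro x
    obtain ⟨d, rfl⟩ := exists_mk x
    rw [← sum_closed (hper d)]
    apply Finset.sum_congr rfl
    intro k _
    rw [eSigma_pow_mk, eSigma_pow_mk, rhoX_mk, rhoX_mk, PX_mk, sX_mk]
    rfl
  have h2 : ∑ x : X T, ∑ k ∈ Finset.range N,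
      (PX (rhoX (rhoX ((eSigma T ^ k) x))) - 3 * sX ((eSigma T ^ (k + 1)) x)) = 0 :=
    Finset.sum_eq_zero fun x _ => h1 x
  rw [Finset.sum_comm] at h2
  have h3 : ∀ k, ∑ x : X T, PX (rhoX (rhoX ((eSigma T ^ k) x))) = ∑ x : X T, PX x := by
    intro k
    exact Equiv.sum_comp ((eRho T * eRho T) * (eSigma T ^ k)) (fun x => PX x)
  have h4 : ∀ k, ∑ x : X T, sX ((eSigma T ^ (k + 1)) x) = ∑ x : X T, sX x := by
    intro k
    exact Equiv.sum_comp (eSigma T ^ (k + 1)) (fun x => sX x)
  have h5 : ∑ k ∈ Finset.range N, ((∑ x : X T, PX x) - 3 * ∑ x : X T, sX x) = 0 := by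
    rw [← h2]
    apply Finset.sum_congr rfl
    intro k _
    rw [Finset.sum_sub_distrib, h3, ← Finset.mul_sum, h4]
  rw [Finset.sum_const, Finset.card_range, nsmul_eq_mul] at h5
  have h6 : (∑ x : X T, PX x) - 3 * ∑ x : X T, sX x = 0 := by
    rcases mul_eq_zero.mp h5 with h | h
    · have : N = 0 := by exact_mod_cast h
      omega
    · exact h
  have h7 : ∀ x : X T, sX x + sX (rhoX x) + sX (rhoX (rhoX x)) = 1 := by
    intro x
    obtain ⟨d, rfl⟩ := exists_mk x
    exact sgn_sum d
  have h8 : 3 * ∑ x : X T, sX x = Fintype.card (X T) := by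
    have h9 : ∑ x : X T, (sX x + sX (rhoX x) + sX (rhoX (rhoX x))) = Fintype.card (X T) := by
      rw [Finset.sum_congr rfl fun x _ => h7 x]
      simp
    rw [Finset.sum_add_distrib, Finset.sum_add_distrib] at h9
    have h10 : ∑ x : X T, sX (rhoX x) = ∑ x : X T, sX x := Equiv.sum_comp (eRho T) (fun x => sX x)
    have h11 : ∑ x : X T, sX (rhoX (rhoX x)) = ∑ x : X T, sX x :=
      Equiv.sum_comp (eRho T * eRho T) (fun x => sX x)
    rw [h10, h11] at h9
    linarith
  have h12 : ∑ x : X T, PX x = Fintype.card (X T) := by linarith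
  have h13 : ∑ x : X T, PX (tauX x) = Fintype.card (X T) := by
    rw [← h12]
    exact Equiv.sum_comp (eTau T) (fun x => PX x)
  have h14 : ∑ x : X T, (PX x + PX (tauX x)) = ∑ x : X T, 2 := by
    rw [Finset.sum_add_distrib, h12, h13]
    simp
    ring
  have h15 : ∀ x : X T, 2 ≤ PX x + PX (tauX x) := by
    intro x
    obtain ⟨d, rfl⟩ := exists_mk x
    rw [tauX_mk, PX_mk, PX_mk, P_tau]
    exact two_le d
  have h16 := (Finset.sum_eq_sum_iff_of_le (s := Finset.univ) (fun x _ => h15 x)).mp h14.symm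
  have h17 := h16 (cls d) (Finset.mem_univ _)
  rw [tauX_mk, PX_mk, PX_mk, P_tau] at h17
  exact h17.symm

end Dart

open Dart in
theorem Setup.contradiction (T : Setup) : False := by
  obtain ⟨a₀, b₀, c₀, h₀⟩ := T.exists_dart
  obtain ⟨hd, f, G, hF, ha, hb, hc⟩ := id h₀
  let d₀ : Dart T := ⟨a₀, b₀, c₀, h₀⟩
  let D : Set (Dart T) := {d | f d.a = 1 ∧ f d.b = 1 ∧ f d.c = 1}
  have hrho : ∀ d ∈ D, rho d ∈ D := by
    rintro d ⟨h1, h2, h3⟩
    exact ⟨h2, h3, h1⟩
  have htau : ∀ d ∈ D, tau d ∈ D := by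
    rintro d ⟨h1, h2, h3⟩
    refine ⟨h2, h1, ?_⟩
    rw [tau_c, map_sub, map_add, map_smul, map_smul, h1, h2, h3]
    simp only [zsmul_eq_mul, mul_one]
    have := all_two d
    have h4 : (P d : ℝ) + Q d = 2 := by exact_mod_cast this
    linarith
  have hsig : ∀ d ∈ D, sigma d ∈ D := fun d hd => htau _ (hrho _ (hrho _ hd))
  have hit : ∀ k, ∀ d ∈ D, sigma^[k] d ∈ D := by
    intro k
    induction k with
    | zero => intro d hd; exact hd
    | succ k ih => intro d hd; rw [Function.iterate_succ_apply]; exact ih _ (hsig d hd)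
  have memS : ∀ d : Dart T, d.a ∈ T.S := fun d => d.h.2.choose_spec.choose_spec.2.1.1
  -- minimal first vertex
  have hpos := T.pos (fun y hy => (hF y hy).1)
  have hfin := T.fin_set hpos 1
  have hV : ((fun d : Dart T => d.a) '' D).Finite := by
    apply hfin.subset
    rintro _ ⟨d, hd, rfl⟩
    exact ⟨memS d, hd.1.le⟩
  obtain ⟨v, hv, hmin⟩ := hV.toFinset.exists_min_image (T.L 0) ⟨d₀.a, by
    rw [Set.Finite.mem_toFinset]; exact ⟨d₀, ⟨ha.2.1, hb.2.1, hc.2.1⟩, rfl⟩⟩
  rw [Set.Finite.mem_toFinset] at hv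
  obtain ⟨d, hdD, rfl⟩ := hv
  simp only at hmin
  -- the sequences around the vertex
  let s : ℕ → ℝ := fun k => T.L 0 (sigma^[k] d).b - T.L 0 d.a
  let t : ℕ → ℝ := fun k => (det3 d.a d.b (sigma^[k] d).b : ℝ)
  have hs : ∀ k, 0 < s k := by
    intro k
    have h1 : (sigma^[k] d).b ∈ (fun d : Dart T => d.a) '' D :=
      ⟨rho (sigma^[k] d), hrho _ (hit k d hdD), rfl⟩
    have h2 := hmin _ (by rw [Set.Finite.mem_toFinset]; exact h1)
    have h3 : T.L 0 d.a ≠ T.L 0 (sigma^[k] d).b := by
      intro h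
      have h4 := T.L_inj 0 h
      have h5 := (sigma^[k] d).det
      rw [iter_a, h4] at h5
      simp [det3] at h5
      have h6 : det3 (sigma^[k] d).b (sigma^[k] d).b (sigma^[k] d).c = 0 := by
        simp [det3]; ring
      have h7 := (sigma^[k] d).det
      rw [iter_a, h4] at h7
      omega
    simp only [s]
    have := lt_of_le_of_ne h2 h3
    linarith
  have hrec : ∀ k, (sigma^[k + 2] d).b = p (sigma^[k] d) • (sigma^[k + 1] d).b
      + Q (rho (rho (sigma^[k] d))) • d.a - (sigma^[k] d).b := by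
    intro k
    have e1 : (sigma^[k + 2] d).b = (sigma (sigma^[k] d)).c := by
      rw [Function.iterate_succ_apply', Function.iterate_succ_apply']
      rfl
    have e2 : (sigma^[k + 1] d).b = (sigma^[k] d).c := by
      rw [Function.iterate_succ_apply']; rfl
    rw [e1, e2, sigma_c, iter_a]
  have hPQ : ∀ k, (p (sigma^[k] d) : ℝ) + Q (rho (rho (sigma^[k] d))) = 2 := by
    intro k
    have := all_two (rho (rho (sigma^[k] d)))
    have h : p (sigma^[k] d) + Q (rho (rho (sigma^[k] d))) = 2 := this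
    exact_mod_cast h
  have hsrec : ∀ k, s (k + 2) = p (sigma^[k] d) * s (k + 1) - s k := by
    intro k
    simp only [s]
    rw [hrec k, map_sub, map_add, map_smul, map_smul]
    simp only [zsmul_eq_mul]
    have := hPQ k
    linear_combination (T.L 0 d.a) * this
  have htrec : ∀ k, t (k + 2) = p (sigma^[k] d) * t (k + 1) - t k := by
    intro k
    simp only [t]
    rw [hrec k]
    have : det3 d.a d.b (p (sigma^[k] d) • (sigma^[k + 1] d).b
      + Q (rho (rho (sigma^[k] d))) • d.a - (sigma^[k] d).b) =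
      p (sigma^[k] d) * det3 d.a d.b (sigma^[k + 1] d).b - det3 d.a d.b (sigma^[k] d).b := by
      simp only [det3, Pi.add_apply, Pi.sub_apply, Pi.smul_apply, smul_eq_mul]
      ring
    rw [this]
    push_cast
    ring
  have ht0 : t 0 = 0 := by
    simp only [t, Function.iterate_zero, id_eq]
    have : det3 d.a d.b d.b = 0 := by simp [det3]; ring
    rw [this]; simp
  have ht1 : t 1 = 1 := by
    simp only [t, Function.iterate_one, sigma_b]
    rw [d.det]; simp
  have hE : ∀ k, s k * t (k + 1) - s (k + 1) * t k = s 0 := by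
    intro k
    induction k with
    | zero => rw [ht0, ht1]; ring
    | succ k ih =>
      rw [hsrec k, htrec k]
      linarith
  have hmono : ∀ k, t k / s k < t (k + 1) / s (k + 1) := by
    intro k
    rw [div_lt_div_iff₀ (hs k) (hs (k + 1))]
    have := hE k
    have := hs 0
    linarith
  have hinc : StrictMono (fun k => t k / s k) := strictMono_nat_of_lt_succ hmono
  obtain ⟨N, hN, _, hper⟩ := exists_period T
  have h1 : t N / s N = t 0 / s 0 := by
    simp only [t, s]
    rw [hper d]
    simp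
  have h2 := hinc hN
  simp only at h2
  rw [h1] at h2
  exact lt_irrefl _ h2

end KCore

/-! ### From the matrix to the abstract setup -/

namespace Eigen

open KCore Polynomial

/-- cyclicity of nonzero vectors for a matrix with irreducible characteristic polynomial -/
theorem cyclic (M : Matrix (Fin 3) (Fin 3) ℤ)
    (hirr : Irreducible (M.charpoly.map (Int.castRingHom ℚ))) (z : Fin 3 → ℤ) (hz : z ≠ 0) :
    det3 z (M.mulVec z) (M.mulVec (M.mulVec z)) ≠ 0 := by
  intro hdet
  let Mq : Matrix (Fin 3) (Fin 3) ℚ := M.map (Int.castRingHom ℚ)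
  let zq : Fin 3 → ℚ := fun i => (z i : ℚ)
  have hM1 : Mq.mulVec zq = fun i => ((M.mulVec z) i : ℚ) := by
    ext i
    simp [Mq, zq, Matrix.mulVec, dotProduct]
  have hM2 : Mq.mulVec (Mq.mulVec zq) = fun i => ((M.mulVec (M.mulVec z)) i : ℚ) := by
    rw [hM1]
    ext i
    simp [Mq, Matrix.mulVec, dotProduct]
  let K : Matrix (Fin 3) (Fin 3) ℚ :=
    Matrix.of fun i j => ![zq i, (Mq.mulVec zq) i, (Mq.mulVec (Mq.mulVec zq)) i] j
  have hK : K.det = 0 := by
    have h1 : K.det = ((det3 z (M.mulVec z) (M.mulVec (M.mulVec z)) : ℤ) : ℚ) := by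
      rw [Matrix.det_fin_three]
      simp only [K, Matrix.of_apply, Matrix.cons_val_zero, Matrix.cons_val_one, Matrix.cons_val]
      rw [hM2, hM1]
      simp only [det3, zq]
      push_cast
      ring
    rw [h1, hdet]; simp
  obtain ⟨c, hc0, hc⟩ := Matrix.exists_mulVec_eq_zero_iff.mpr hK
  let p : ℚ[X] := C (c 0) + C (c 1) * X + C (c 2) * X ^ 2
  have hp0 : p ≠ 0 := by
    intro hp
    apply hc0
    ext i
    have h0 := congrArg (fun q => coeff q 0) hp
    have h1 := congrArg (fun q => coeff q 1) hp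
    have h2 := congrArg (fun q => coeff q 2) hp
    simp [p, coeff_X, coeff_C] at h0 h1 h2
    fin_cases i
    · exact h0
    · exact h1
    · exact h2
  have hpdeg : p.natDegree ≤ 2 := by
    simp only [p]
    compute_degree
  have haev : (aeval Mq p).mulVec zq = 0 := by
    have h1 : (aeval Mq p) = c 0 • (1 : Matrix (Fin 3) (Fin 3) ℚ) + c 1 • Mq + c 2 • (Mq * Mq) := by
      simp only [p, map_add, map_mul, aeval_C, aeval_X, Algebra.algebraMap_eq_smul_one,
        smul_mul_assoc, one_mul, pow_two]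
    rw [h1, Matrix.add_mulVec, Matrix.add_mulVec, Matrix.smul_mulVec, Matrix.smul_mulVec,
      Matrix.smul_mulVec, Matrix.one_mulVec, ← Matrix.mulVec_mulVec]
    ext i
    have h2 := congrFun hc i
    simp only [Matrix.mulVec, dotProduct, K, Matrix.of_apply, Fin.sum_univ_three,
      Matrix.cons_val_zero, Matrix.cons_val_one, Matrix.cons_val, Pi.zero_apply] at h2
    simp only [Pi.add_apply, Pi.smul_apply, smul_eq_mul, Pi.zero_apply, Matrix.mulVec, dotProduct,
      Fin.sum_univ_three]
    linarith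
  have hchar : M.charpoly.map (Int.castRingHom ℚ) = Mq.charpoly := (Matrix.charpoly_map M (Int.castRingHom ℚ)).symm
  rw [hchar] at hirr
  have hcop : IsCoprime Mq.charpoly p := by
    rw [hirr.coprime_iff_not_dvd]
    intro hdvd
    have h1 := natDegree_le_of_dvd hdvd hp0
    rw [Matrix.charpoly_natDegree_eq_dim] at h1
    simp at h1
    omega
  obtain ⟨a, b, hab⟩ := hcop
  have h3 := congrArg (aeval Mq) hab
  rw [map_add, map_mul, map_mul, Matrix.aeval_self_charpoly, mul_zero, zero_add, map_one] at h3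
  have h4 : zq = 0 := by
    have h5 : (1 : Matrix (Fin 3) (Fin 3) ℚ).mulVec zq = 0 := by
      rw [← h3, ← Matrix.mulVec_mulVec, haev, Matrix.mulVec_zero]
    rwa [Matrix.one_mulVec] at h5
  apply hz
  ext i
  have h6 := congrFun h4 i
  simp only [zq, Pi.zero_apply] at h6
  exact_mod_cast h6

/-- real vector of an integer vector -/
def rv (z : Fin 3 → ℤ) : Fin 3 → ℝ := fun i => (z i : ℝ)

/-- real matrix of an integer matrix -/
def rm (A : Matrix (Fin 3) (Fin 3) ℤ) : Matrix (Fin 3) (Fin 3) ℝ := A.map (Int.cast : ℤ → ℝ)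

theorem rm_mulVec (A : Matrix (Fin 3) (Fin 3) ℤ) (z : Fin 3 → ℤ) :
    (rm A).mulVec (rv z) = rv (A.mulVec z) := by
  ext i
  simp [rm, rv, Matrix.mulVec, dotProduct]

structure EigenData (A : Matrix (Fin 3) (Fin 3) ℤ) where
  lam : Fin 3 → ℝ
  w : Fin 3 → (Fin 3 → ℝ)
  lam_inj : Function.Injective lam
  w_ne : ∀ i, w i ≠ 0
  eig : ∀ i, (rm A).mulVec (w i) = lam i • w i

namespace EigenData

variable {A : Matrix (Fin 3) (Fin 3) ℤ} (E : EigenData A)

theorem linInd : LinearIndependent ℝ E.w := by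
  apply Module.End.eigenvectors_linearIndependent' (Matrix.mulVecLin (rm A)) E.lam E.lam_inj E.w
  intro i
  rw [Module.End.hasEigenvector_iff, Module.End.mem_eigenspace_iff]
  exact ⟨E.eig i, E.w_ne i⟩

noncomputable def bas : Module.Basis (Fin 3) ℝ (Fin 3 → ℝ) :=
  basisOfLinearIndependentOfCardEqFinrank E.linInd (by simp)

theorem bas_apply (i : Fin 3) : E.bas i = E.w i := by
  simp [bas]

/-- coordinates in the eigenbasis -/
noncomputable def co (i : Fin 3) : (Fin 3 → ℝ) →ₗ[ℝ] ℝ := E.bas.coord i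

theorem sum_co (x : Fin 3 → ℝ) : x = E.co 0 x • E.w 0 + E.co 1 x • E.w 1 + E.co 2 x • E.w 2 := by
  have h := E.bas.sum_repr x
  rw [Fin.sum_univ_three, bas_apply, bas_apply, bas_apply] at h
  exact h.symm

theorem co_w (i j : Fin 3) : E.co i (E.w j) = if i = j then 1 else 0 := by
  rw [← bas_apply]
  simp only [co, Module.Basis.coord_apply, Module.Basis.repr_self]
  rw [Finsupp.single_apply]
  simp only [eq_comm]

theorem co_mul (i : Fin 3) (x : Fin 3 → ℝ) : E.co i ((rm A).mulVec x) = E.lam i * E.co i x := by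
  conv_lhs => rw [E.sum_co x]
  rw [Matrix.mulVec_add, Matrix.mulVec_add, Matrix.mulVec_smul, Matrix.mulVec_smul,
    Matrix.mulVec_smul, E.eig, E.eig, E.eig]
  simp only [map_add, map_smul, co_w, smul_eq_mul]
  fin_cases i <;> simp <;> ring

noncomputable def L (i : Fin 3) : Form where
  toFun z := E.co i (rv z)
  map_add' x y := by
    rw [← map_add]; congr 1; ext j; simp [rv]
  map_smul' m x := by
    have : rv (m • x) = (m : ℝ) • rv x := by ext j; simp [rv]
    rw [this, map_smul]
    simp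

theorem L_apply (i : Fin 3) (z : IVec) : E.L i z = E.co i (rv z) := rfl

theorem L_eig (i : Fin 3) (z : IVec) : E.L i (A.mulVecLin z) = E.lam i * E.L i z := by
  rw [L_apply, L_apply, ← E.co_mul, rm_mulVec]
  rfl

theorem ldet : Ldet E.L ≠ 0 := by
  -- the coordinate matrix times the matrix of eigenvectors is the identity
  let N : Matrix (Fin 3) (Fin 3) ℝ := Matrix.of fun i j => E.L i (e j)
  let W : Matrix (Fin 3) (Fin 3) ℝ := Matrix.of fun i j => E.w j i
  have hNW : N * W = 1 := by
    ext i j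
    rw [Matrix.mul_apply, Fin.sum_univ_three]
    simp only [N, W, Matrix.of_apply]
    have h1 : E.w j = E.w j 0 • rv (e 0) + E.w j 1 • rv (e 1) + E.w j 2 • rv (e 2) := by
      ext k
      fin_cases k <;> simp [rv, e]
    have h2 := congrArg (E.co i) h1
    rw [map_add, map_add, map_smul, map_smul, map_smul, co_w] at h2
    simp only [smul_eq_mul] at h2
    rw [Matrix.one_apply, h2, L_apply, L_apply, L_apply]
    ring
  have hdet : N.det * W.det = 1 := by rw [← Matrix.det_mul, hNW, Matrix.det_one]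
  have h3 : N.det = Ldet E.L := by
    rw [Matrix.det_fin_three]
    simp only [N, Matrix.of_apply, Ldet, rdet]
    ring
  intro h4
  rw [h3, h4, zero_mul] at hdet
  exact zero_ne_one hdet

/-- Vandermonde -/
noncomputable def vand : ℝ := (E.lam 1 - E.lam 0) * (E.lam 2 - E.lam 0) * (E.lam 2 - E.lam 1)

theorem vand_ne : E.vand ≠ 0 := by
  have h10 : E.lam 1 ≠ E.lam 0 := fun h => by simpa using E.lam_inj h
  have h20 : E.lam 2 ≠ E.lam 0 := fun h => by simpa using E.lam_inj h
  have h21 : E.lam 2 ≠ E.lam 1 := fun h => by simpa using E.lam_inj h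
  exact mul_ne_zero (mul_ne_zero (sub_ne_zero.mpr h10) (sub_ne_zero.mpr h20)) (sub_ne_zero.mpr h21)

theorem norm_ge (hirr : Irreducible (A.charpoly.map (Int.castRingHom ℚ))) (y : IVec) (hy : y ≠ 0) :
    |Ldet E.L| / |E.vand| ≤ |E.L 0 y * E.L 1 y * E.L 2 y| := by
  have h1 := cyclic A hirr y hy
  have h2 := rdet_L E.L y (A.mulVecLin y) (A.mulVecLin (A.mulVecLin y))
  simp only [E.L_eig] at h2
  have h3 : rdet (fun i => E.L i y) (fun i => E.lam i * E.L i y)
      (fun i => E.lam i * (E.lam i * E.L i y)) = E.vand * (E.L 0 y * E.L 1 y * E.L 2 y) := by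
    simp only [rdet, vand]; ring
  rw [h3] at h2
  have h4 : |E.vand| * |E.L 0 y * E.L 1 y * E.L 2 y| =
      |Ldet E.L| * |(det3 y (A.mulVec y) (A.mulVec (A.mulVec y)) : ℝ)| := by
    rw [← abs_mul, ← abs_mul, h2]
    rfl
  have h5 : (1 : ℝ) ≤ |(det3 y (A.mulVec y) (A.mulVec (A.mulVec y)) : ℝ)| := by
    have := Int.one_le_abs h1
    exact_mod_cast this
  have h6 : 0 < |E.vand| := abs_pos.mpr E.vand_ne
  rw [div_le_iff₀ h6]
  nlinarith [abs_nonneg (Ldet E.L)]

theorem dual_ge (hirr : Irreducible (A.charpoly.map (Int.castRingHom ℚ))) (g : IVec) (hg : g ≠ 0)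
    (c : Fin 3 → ℝ)
    (hc : ∀ y : IVec, (dotp g y : ℝ) = c 0 * E.L 0 y + c 1 * E.L 1 y + c 2 * E.L 2 y) :
    1 / (|E.vand| * |Ldet E.L|) ≤ |c 0 * c 1 * c 2| := by
  have hirr' : Irreducible (A.transpose.charpoly.map (Int.castRingHom ℚ)) := by
    rw [Matrix.charpoly_transpose]; exact hirr
  have h1 := cyclic A.transpose hirr' g hg
  have hdot : ∀ (g y : IVec), dotp (A.transpose.mulVec g) y = dotp g (A.mulVec y) := by
    intro g y
    simp only [dotp, Matrix.mulVec, dotProduct, Fin.sum_univ_three, Matrix.transpose_apply]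
    ring
  have hc1 : ∀ y : IVec, (dotp (A.transpose.mulVec g) y : ℝ) =
      c 0 * (E.lam 0 * E.L 0 y) + c 1 * (E.lam 1 * E.L 1 y) + c 2 * (E.lam 2 * E.L 2 y) := by
    intro y
    rw [hdot, ← E.L_eig, ← E.L_eig, ← E.L_eig]
    exact hc _
  have hc2 : ∀ y : IVec, (dotp (A.transpose.mulVec (A.transpose.mulVec g)) y : ℝ) =
      c 0 * (E.lam 0 * (E.lam 0 * E.L 0 y)) + c 1 * (E.lam 1 * (E.lam 1 * E.L 1 y))
        + c 2 * (E.lam 2 * (E.lam 2 * E.L 2 y)) := by
    intro y
    have := hc1 (A.mulVecLin y)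
    rw [E.L_eig, E.L_eig, E.L_eig] at this
    rw [hdot]
    exact this
  have hcoord : ∀ (g : IVec), dotp g (e 0) = g 0 ∧ dotp g (e 1) = g 1 ∧ dotp g (e 2) = g 2 := by
    intro g
    simp [dotp, e]
  have key : (det3 g (A.transpose.mulVec g) (A.transpose.mulVec (A.transpose.mulVec g)) : ℝ)
      = (c 0 * c 1 * c 2) * (E.vand * Ldet E.L) := by
    have a0 := hc (e 0)
    have a1 := hc (e 1)
    have a2 := hc (e 2)
    have b0 := hc1 (e 0)
    have b1 := hc1 (e 1)
    have b2 := hc1 (e 2)
    have d0 := hc2 (e 0)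
    have d1 := hc2 (e 1)
    have d2 := hc2 (e 2)
    rw [(hcoord _).1] at a0 b0 d0
    rw [(hcoord _).2.1] at a1 b1 d1
    rw [(hcoord _).2.2] at a2 b2 d2
    simp only [det3]
    push_cast
    rw [a0, a1, a2, b0, b1, b2, d0, d1, d2]
    simp only [Ldet, rdet, vand]
    ring
  have h5 : (1 : ℝ) ≤ |(det3 g (A.transpose.mulVec g) (A.transpose.mulVec (A.transpose.mulVec g)) : ℝ)| := by
    have := Int.one_le_abs h1
    exact_mod_cast this
  rw [key, abs_mul, abs_mul E.vand] at h5
  have h6 : 0 < |E.vand| := abs_pos.mpr E.vand_ne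
  have h7 : 0 < |Ldet E.L| := abs_pos.mpr E.ldet
  rw [div_le_iff₀ (mul_pos h6 h7)]
  exact h5

/-- the abstract setup -/
noncomputable def setup (hirr : Irreducible (A.charpoly.map (Int.castRingHom ℚ)))
    (H : ∀ (g : IVec) (k : ℤ), (∀ d : ℤ, d ∣ g 0 → d ∣ g 1 → d ∣ g 2 → IsUnit d) → 2 ≤ k →
    (∀ y : IVec, (∀ i, 0 < E.L i y) → k ≤ dotp g y) →
    ∀ a b c : IVec, (∀ i, 0 < E.L i a) → (∀ i, 0 < E.L i b) → (∀ i, 0 < E.L i c) →
      dotp g a = k → dotp g b = k → dotp g c = k → det3 a b c ≠ 0 → False) : Setup where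
  L := E.L
  A := A.mulVecLin
  lam := E.lam
  lam_inj := E.lam_inj
  eig := E.L_eig
  ldet := E.ldet
  δ := |Ldet E.L| / |E.vand|
  δ_pos := div_pos (abs_pos.mpr E.ldet) (abs_pos.mpr E.vand_ne)
  norm_ge := E.norm_ge hirr
  ε := 1 / (|E.vand| * |Ldet E.L|)
  ε_pos := div_pos one_pos (mul_pos (abs_pos.mpr E.vand_ne) (abs_pos.mpr E.ldet))
  dual_ge := E.dual_ge hirr
  H := H

end EigenData

end Eigen

/-! ### The theorem -/

open KCore Eigen

/-- linear form of an integer covector -/
def gform (g : Fin 3 → ℤ) : (Fin 3 → ℝ) →ₗ[ℝ] ℝ where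
  toFun x := (g 0 : ℝ) * x 0 + (g 1 : ℝ) * x 1 + (g 2 : ℝ) * x 2
  map_add' x y := by simp; ring
  map_smul' m x := by simp; ring

theorem gform_apply (g : Fin 3 → ℤ) (x : Fin 3 → ℝ) :
    gform g x = (g 0 : ℝ) * x 0 + (g 1 : ℝ) * x 1 + (g 2 : ℝ) * x 2 := rfl

theorem gform_rv (g z : Fin 3 → ℤ) : gform g (rv z) = (dotp g z : ℝ) := by
  rw [gform_apply]; simp [rv, dotp]

theorem realMat_eq (A : Matrix (Fin 3) (Fin 3) ℤ) : realMat A = rm A := rfl

theorem affineSpan_face {F : Set (Fin 3 → ℝ)} {g a b c : Fin 3 → ℤ} {k : ℝ}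
    (hF : ∀ x ∈ F, gform g x = k) (ha : rv a ∈ F) (hb : rv b ∈ F) (hc : rv c ∈ F)
    (hdet : det3 a b c ≠ 0) (hk : k ≠ 0) :
    (affineSpan ℝ F : Set (Fin 3 → ℝ)) = {x | gform g x = k} := by
  apply Set.Subset.antisymm
  · intro x hx
    have hle : affineSpan ℝ F ≤ (affineSpan ℝ ({k} : Set ℝ)).comap (gform g).toAffineMap := by
      rw [affineSpan_le]
      intro y hy
      rw [AffineSubspace.coe_comap, Set.mem_preimage, LinearMap.coe_toAffineMap, hF y hy]
      exact mem_affineSpan ℝ (Set.mem_singleton k)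
    have h1 := hle hx
    rw [AffineSubspace.mem_comap, AffineSubspace.mem_affineSpan_singleton] at h1
    exact h1
  · intro x hx
    have hx : gform g x = k := hx
    -- real Cramer rule
    set D : ℝ := (det3 a b c : ℝ) with hD
    have hD0 : D ≠ 0 := by rw [hD]; exact_mod_cast hdet
    let ra := rv a
    let rb := rv b
    let rc := rv c
    set α := rdet x rb rc / D with hα
    set β := rdet ra x rc / D with hβ
    set γ := rdet ra rb x / D with hγ
    have hDr : D = rdet ra rb rc := by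
      simp only [hD, det3, rdet, ra, rb, rc, rv]; push_cast; ring
    have hx' : x = α • ra + β • rb + γ • rc := by
      have : D • x = rdet x rb rc • ra + rdet ra x rc • rb + rdet ra rb x • rc := by
        rw [hDr]
        ext i
        simp only [Pi.add_apply, Pi.smul_apply, smul_eq_mul]
        fin_cases i <;> simp [rdet] <;> ring
      have h2 : x = D⁻¹ • (D • x) := by rw [smul_smul, inv_mul_cancel₀ hD0, one_smul]
      rw [h2, this, smul_add, smul_add, smul_smul, smul_smul, smul_smul, hα, hβ, hγ]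
      simp only [div_eq_inv_mul]
    have hsum : α + β + γ = 1 := by
      have h3 := congrArg (gform g) hx'
      rw [map_add, map_add, map_smul, map_smul, map_smul, hx, hF _ ha, hF _ hb, hF _ hc] at h3
      simp only [smul_eq_mul] at h3
      have : k * (α + β + γ) = k * 1 := by linarith
      exact mul_left_cancel₀ hk this
    have ma := mem_affineSpan ℝ ha
    have mb := mem_affineSpan ℝ hb
    have mc := mem_affineSpan ℝ hc
    have h4 := AffineSubspace.smul_vsub_vadd_mem _ β mb ma ma
    have h5 := AffineSubspace.smul_vsub_vadd_mem _ γ mc ma h4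
    have h6 : γ • (rv c -ᵥ rv a) +ᵥ (β • (rv b -ᵥ rv a) +ᵥ rv a) = x := by
      rw [hx']
      have : α = 1 - β - γ := by linarith
      rw [this]
      ext i
      simp only [vsub_eq_sub, vadd_eq_add, Pi.add_apply, Pi.smul_apply, Pi.sub_apply, smul_eq_mul,
        ra, rb, rc]
      ring
    rw [h6] at h5
    exact h5

theorem result (A : Matrix (Fin 3) (Fin 3) ℤ) (hA : IsAdmissible A) (C : Set (Fin 3 → ℝ))
    (hC : IsEigenCone A C) :
    ∃ O : Set (Set (Fin 3 → ℝ)), IsTorusFace A C O ∧
      ∃ c : ℤ, 2 ≤ c ∧ ∀ F ∈ O, HasIntegerDistance F c := by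
  obtain ⟨lam, w, hinj, hw, hCeq⟩ := hC
  let E : EigenData A := ⟨lam, w, hinj, fun i => (hw i).1, fun i => (hw i).2⟩
  by_contra hcon
  -- points of the closed cone
  have hcl : ∀ x ∈ closure C, ∀ i, 0 ≤ E.co i x := by
    intro x hx i
    have hclosed : IsClosed {x : Fin 3 → ℝ | 0 ≤ E.co i x} :=
      isClosed_le continuous_const (LinearMap.continuous_of_finiteDimensional (E.co i))
    have hsub : C ⊆ {x : Fin 3 → ℝ | 0 ≤ E.co i x} := by
      rw [hCeq]
      rintro _ ⟨t, ht, rfl⟩
      have h1 : E.co i (∑ j, t j • w j) = t i := by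
        rw [map_sum]
        simp only [map_smul, smul_eq_mul]
        have h2 : ∀ j, E.co i (w j) = if i = j then 1 else 0 := fun j => E.co_w i j
        simp only [h2]
        simp
      simp only [Set.mem_ofPred_eq, h1]
      exact (ht i).le
    exact closure_minimal hsub hclosed hx
  have hLne : ∀ z : IVec, z ≠ 0 → ∀ i, E.L i z ≠ 0 := by
    intro z hz i h0
    have h1 := E.norm_ge hA.irreducible z hz
    have h2 : 0 < |Ldet E.L| / |E.vand| := div_pos (abs_pos.mpr E.ldet) (abs_pos.mpr E.vand_ne)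
    have h3 : E.L 0 z * E.L 1 z * E.L 2 z = 0 := by
      fin_cases i <;> simp at h0 <;> simp [h0]
    rw [h3, abs_zero] at h1
    linarith
  have hmem : ∀ z : IVec, (∀ i, 0 < E.L i z) → rv z ∈ closure C ∩ latticePoints := by
    intro z hz
    refine ⟨subset_closure ?_, ?_, z, fun i => rfl⟩
    · rw [hCeq]
      refine ⟨fun i => E.co i (rv z), hz, ?_⟩
      rw [Fin.sum_univ_three]
      exact E.sum_co (rv z)
    · intro h0
      have h1 := hz 0
      rw [EigenData.L_apply, h0, map_zero] at h1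
      exact lt_irrefl _ h1
  have hmem' : ∀ x ∈ closure C ∩ latticePoints, ∃ z : IVec, x = rv z ∧ ∀ i, 0 < E.L i z := by
    rintro x ⟨hx, hx0, z, hz⟩
    have hxz : x = rv z := funext hz
    refine ⟨z, hxz, fun i => ?_⟩
    have h1 := hcl x hx i
    rw [hxz] at h1
    have hz0 : z ≠ 0 := by
      rintro rfl
      apply hx0
      rw [hxz]
      ext j
      simp [rv]
    exact lt_of_le_of_ne h1 (hLne z hz0 i).symm
  apply Setup.contradiction (E.setup hA.irreducible ?_)
  intro g k hprim hk hge a b c ha hb hc hga hgb hgc hdet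
  apply hcon
  have hkR : (2 : ℝ) ≤ (k : ℝ) := by exact_mod_cast hk
  -- the face
  let F : Set (Fin 3 → ℝ) := {x | x ∈ hull C ∧ gform g x = (k : ℝ)}
  have hsub : hull C ⊆ {x | (k : ℝ) ≤ gform g x} := by
    apply convexHull_min
    · intro x hx
      obtain ⟨z, rfl, hz⟩ := hmem' x hx
      simp only [Set.mem_ofPred_eq]
      rw [gform_rv]
      exact_mod_cast hge z hz
    · exact convex_halfSpace_ge (gform g).isLinear _
  have haF : rv a ∈ F := ⟨subset_convexHull ℝ _ (hmem a ha), by rw [gform_rv, hga]⟩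
  have hbF : rv b ∈ F := ⟨subset_convexHull ℝ _ (hmem b hb), by rw [gform_rv, hgb]⟩
  have hcF : rv c ∈ F := ⟨subset_convexHull ℝ _ (hmem c hc), by rw [gform_rv, hgc]⟩
  have hspan : (affineSpan ℝ F : Set (Fin 3 → ℝ)) = {x | gform g x = (k : ℝ)} :=
    affineSpan_face (fun x hx => hx.2) haF hbF hcF hdet (by linarith)
  have hg0 : gform g ≠ 0 := by
    intro h
    have h1 := haF.2
    rw [h] at h1
    simp at h1
    linarith
  have hface : IsFace C F := by
    refine ⟨?_, gform g, k, hg0, fun x hx => hsub hx, rfl, hspan⟩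
    intro x hx
    rw [sail, frontier, Set.mem_sdiff]
    refine ⟨subset_closure hx.1, ?_⟩
    intro hint
    have h1 : x ∈ interior {x | (k : ℝ) ≤ gform g x} := interior_mono hsub hint
    have hopen : IsOpenMap (gform g) := by
      apply LinearMap.isOpenMap_of_finiteDimensional
      exact LinearMap.surjective hg0
    have hcont : Continuous (gform g) := LinearMap.continuous_of_finiteDimensional _
    have h2 : {x | (k : ℝ) ≤ gform g x} = (gform g) ⁻¹' (Set.Ici (k : ℝ)) := rfl
    rw [h2, ← hopen.preimage_interior_eq_interior_preimage hcont, interior_Ici, Set.mem_preimage,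
      Set.mem_Ioi, hx.2] at h1
    exact lt_irrefl _ h1
  refine ⟨{F' | ∃ B ∈ Gam A C, F' = (fun x => (realMat B).mulVec x) '' F}, ⟨F, hface, rfl⟩, k, hk, ?_⟩
  rintro _ ⟨B, ⟨hBdet, hBA, hBC⟩, rfl⟩
  refine ⟨by omega, (B.adjugate.transpose).mulVec g, ?_, ?_⟩
  · intro d hd
    have hgB : B.transpose.mulVec ((B.adjugate.transpose).mulVec g) = g := by
      rw [Matrix.mulVec_mulVec, ← Matrix.transpose_mul, Matrix.adjugate_mul, hBdet, one_smul,
        Matrix.transpose_one, Matrix.one_mulVec]
    have hdvd : ∀ i, d ∣ g i := by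
      intro i
      rw [← hgB]
      simp only [Matrix.mulVec, dotProduct]
      apply Finset.dvd_sum
      intro j _
      exact Dvd.dvd.mul_left (hd j) _
    exact hprim d (hdvd 0) (hdvd 1) (hdvd 2)
  · have hBinv : realMat B * realMat B.adjugate = 1 := by
      have h1 : B * B.adjugate = 1 := by rw [Matrix.mul_adjugate, hBdet, one_smul]
      have h2 : realMat (B * B.adjugate) = realMat B * realMat B.adjugate := by
        simp only [realMat]
        exact Matrix.map_mul (f := Int.castRingHom ℝ)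
      rw [← h2, h1]
      ext i j
      simp [realMat, Matrix.one_apply]
    have hBinv' : realMat B.adjugate * realMat B = 1 := by
      exact mul_eq_one_comm.mp hBinv
    have hform : ∀ y : Fin 3 → ℝ, ∑ i, (((B.adjugate.transpose).mulVec g) i : ℝ) * y i =
        gform g ((realMat B.adjugate).mulVec y) := by
      intro y
      rw [gform_apply]
      simp only [Matrix.mulVec, dotProduct, Fin.sum_univ_three, Matrix.transpose_apply, realMat,
        Matrix.map_apply]
      push_cast
      ring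
    have himg : (fun x => (realMat B).mulVec x) '' F = ((realMat B).mulVecLin.toAffineMap) '' F := rfl
    rw [himg, ← AffineSubspace.map_span, AffineSubspace.coe_map, hspan]
    ext y
    simp only [Set.mem_image, Set.mem_ofPred_eq, LinearMap.coe_toAffineMap, Matrix.mulVecLin_apply]
    rw [hform]
    constructor
    · rintro ⟨x, hx, rfl⟩
      rw [Matrix.mulVec_mulVec, hBinv', Matrix.one_mulVec]
      exact hx
    · intro hy
      refine ⟨(realMat B.adjugate).mulVec y, hy, ?_⟩
      rw [Matrix.mulVec_mulVec, hBinv, Matrix.one_mulVec]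

end Pool.Agent.Results.MP_024ca5_nt.DistanceTwoFace
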